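import Pool.Agent.N430.CLT.Slutsky

set_option autoImplicit false

/-! Characteristic functions of weighted sums of Legendre symbols over an arithmetic progression. -/

namespace Pool.Agent.V8H64.GL

open Finset Pool.Agent.N430.CLT

/-- the Legendre symbol of `c + W m` modulo `p` -/
noncomputable def chi (c W : ℤ) (p m : ℕ) : ℝ := ((jacobiSym (c + W * m) p : ℤ) : ℝ)

lemma abs_jac_le (a : ℤ) (p : ℕ) : |((jacobiSym a p : ℤ) : ℝ)| ≤ 1 := by
  rcases jacobiSym.trichotomy a p with h | h | h <;> rw [h] <;> norm_num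

lemma abs_chi_le (c W : ℤ) (p m : ℕ) : |chi c W p m| ≤ 1 := abs_jac_le _ _

lemma chi_per (c W : ℤ) (p m : ℕ) : chi c W p (m + p) = chi c W p m := by
  unfold chi
  have h : jacobiSym (c + W * ((m + p : ℕ) : ℤ)) p = jacobiSym (c + W * (m : ℤ)) p := by
    rw [jacobiSym.mod_left (c + W * ((m + p : ℕ) : ℤ)), jacobiSym.mod_left (c + W * (m : ℤ))]
    push_cast
    rw [show c + W * ((m : ℤ) + p) = c + W * m + p * W by ring, Int.add_mul_emod_self_left]
  rw [h]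

/-- a complete system of residues -/
lemma sum_range_lin {p : ℕ} [Fact p.Prime] {c W : ℤ} (hW : ¬ (p : ℤ) ∣ W) (F : ZMod p → ℝ) :
    ∑ m ∈ range p, F ((c + W * m : ℤ) : ZMod p) = ∑ z : ZMod p, F z := by
  have hW0 : ((W : ℤ) : ZMod p) ≠ 0 := by
    rwa [Ne, ZMod.intCast_zmod_eq_zero_iff_dvd]
  have hp : 0 < p := (Fact.out : p.Prime).pos
  have : NeZero p := ⟨hp.ne'⟩
  refine Finset.sum_bij (fun m _ => ((c + W * m : ℤ) : ZMod p)) (fun _ _ => mem_univ _) ?_ ?_ ?_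
  · intro m hm n hn h
    rw [mem_range] at hm hn
    push_cast at h
    have h2 : (m : ZMod p) = n := mul_left_cancel₀ hW0 (add_left_cancel h)
    have h3 := congrArg ZMod.val h2
    rwa [ZMod.val_natCast, ZMod.val_natCast, Nat.mod_eq_of_lt hm, Nat.mod_eq_of_lt hn] at h3
  · intro z _
    refine ⟨(((W : ZMod p)⁻¹ * (z - c)).val), mem_range.2 (ZMod.val_lt _), ?_⟩
    push_cast
    rw [ZMod.natCast_val, ZMod.cast_id', id, mul_inv_cancel_left₀ hW0]
    ring
  · intro m _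
    rfl

lemma chi_mean {p : ℕ} (hp : p.Prime) (h2 : p ≠ 2) {c W : ℤ} (hW : ¬ (p : ℤ) ∣ W) :
    ∑ m ∈ range p, chi c W p m = 0 := by
  have : Fact p.Prime := ⟨hp⟩
  have h := sum_range_lin (c := c) hW (fun z : ZMod p => ((quadraticChar (ZMod p) z : ℤ) : ℝ))
  have h3 : ∀ m ∈ range p, chi c W p m =
      ((quadraticChar (ZMod p) ((c + W * m : ℤ) : ZMod p) : ℤ) : ℝ) := by
    intro m _
    unfold chi
    rw [← jacobiSym.legendreSym.to_jacobiSym, legendreSym]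
  rw [Finset.sum_congr rfl h3, h]
  have h4 := quadraticChar_sum_zero (F := ZMod p) (by rw [ZMod.ringChar_zmod_n]; exact h2)
  exact_mod_cast h4

lemma chi_sq {p : ℕ} (hp : p.Prime) {c W : ℤ} (hW : ¬ (p : ℤ) ∣ W) :
    ∑ m ∈ range p, chi c W p m ^ 2 = p - 1 := by
  have : Fact p.Prime := ⟨hp⟩
  have h := sum_range_lin (c := c) hW (fun z : ZMod p => ((quadraticChar (ZMod p) z : ℤ) : ℝ) ^ 2)
  have h3 : ∀ m ∈ range p, chi c W p m ^ 2 =
      ((quadraticChar (ZMod p) ((c + W * m : ℤ) : ZMod p) : ℤ) : ℝ) ^ 2 := by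
    intro m _
    unfold chi
    rw [← jacobiSym.legendreSym.to_jacobiSym, legendreSym]
  rw [Finset.sum_congr rfl h3, h]
  have h5 : ∀ z : ZMod p, ((quadraticChar (ZMod p) z : ℤ) : ℝ) ^ 2 = 1 - if z = 0 then 1 else 0 := by
    intro z
    by_cases hz : z = 0
    · rw [hz, if_pos rfl]
      simp
    · rw [if_neg hz]
      have := quadraticChar_sq_one (F := ZMod p) hz
      have h6 : ((quadraticChar (ZMod p) z : ℤ) : ℝ) ^ 2 = 1 := by exact_mod_cast this
      rw [h6]; ring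
  rw [Finset.sum_congr rfl fun z _ => h5 z, Finset.sum_sub_distrib]
  simp

/-- the data for the central limit theorem -/
noncomputable def dat (b : ℕ → ℝ) (B : ℝ) (hB0 : 0 < B) (hb : ∀ p, |b p| ≤ B) (c W : ℤ)
    (hW : ∀ p : ℕ, p.Prime → b p ≠ 0 → p ≠ 2 ∧ ¬ (p : ℤ) ∣ W) : Dat where
  X p m := b p / B * chi c W p m
  per p _ m := by rw [chi_per]
  bd p _ m := by
    rw [abs_mul, abs_div, abs_of_pos hB0]
    exact mul_le_one₀ (by rw [div_le_one hB0]; exact hb p) (abs_nonneg _) (abs_chi_le _ _ _ _)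
  mean p hp := by
    rw [avgP_mul_left]
    by_cases h0 : b p = 0
    · rw [h0]; simp
    · unfold avgP
      rw [chi_mean hp (hW p hp h0).1 (hW p hp h0).2]
      simp

/-- the variance -/
noncomputable def vr (b : ℕ → ℝ) (x : ℕ) : ℝ := ∑ p ∈ PP x, b p ^ 2 * (1 - 1 / p)

lemma dat_V (b : ℕ → ℝ) (B : ℝ) (hB0 : 0 < B) (hb : ∀ p, |b p| ≤ B) (c W : ℤ)
    (hW : ∀ p : ℕ, p.Prime → b p ≠ 0 → p ≠ 2 ∧ ¬ (p : ℤ) ∣ W) (x : ℕ) :
    B ^ 2 * (dat b B hB0 hb c W hW).V x = vr b x := by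
  unfold Dat.V vr
  rw [Finset.mul_sum]
  refine Finset.sum_congr rfl fun p hp => ?_
  have hpp := (mem_PP.1 hp).2
  unfold Dat.v
  have e : (fun m => (dat b B hB0 hb c W hW).X p m ^ 2) =
      fun m => (b p / B) ^ 2 * chi c W p m ^ 2 := by
    funext m
    change (b p / B * chi c W p m) ^ 2 = _
    ring
  rw [e, avgP_mul_left]
  by_cases h0 : b p = 0
  · rw [h0]; simp
  · unfold avgP
    rw [chi_sq hpp (hW p hpp h0).2]
    have hp0 : (p : ℝ) ≠ 0 := by exact_mod_cast hpp.pos.ne'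
    field_simp

lemma dat_S (b : ℕ → ℝ) (B : ℝ) (hB0 : 0 < B) (hb : ∀ p, |b p| ≤ B) (c W : ℤ)
    (hW : ∀ p : ℕ, p.Prime → b p ≠ 0 → p ≠ 2 ∧ ¬ (p : ℤ) ∣ W) (x m : ℕ) :
    B * (dat b B hB0 hb c W hW).S x m = ∑ p ∈ PP x, b p * chi c W p m := by
  unfold Dat.S
  rw [Finset.mul_sum]
  refine Finset.sum_congr rfl fun p hp => ?_
  change B * (b p / B * chi c W p m) = _
  field_simp

/-- **Characteristic functions over a progression** -/
theorem cf_class (b : ℕ → ℝ) (B C : ℝ) (hB0 : 0 < B) (hB : 2 * B ≤ 1) (hb : ∀ p, |b p| ≤ B) (c W : ℤ)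
    (hW : ∀ p : ℕ, p.Prime → b p ≠ 0 → p ≠ 2 ∧ ¬ (p : ℤ) ∣ W) (x N K : ℕ) (hx : 1 ≤ x) (hN : 0 < N)
    (hK : Even K) (hC : ∑ p ∈ PP x, b p ^ 2 ≤ C) :
    ‖(∑ m ∈ Icc 1 N, Complex.exp ((∑ p ∈ PP x, b p * chi c W p m : ℝ) * Complex.I)) -
      N * Complex.exp (-((vr b x / 2 : ℝ) : ℂ))‖ ≤
      2 * (K + 1) * (x : ℝ) ^ (2 * K) + N * (4 * (1 / 2) ^ K * Real.exp (4 * C) + 2 * B * C) := by
  set d := dat b B hB0 hb c W hW with hd
  have hV := dat_V b B hB0 hb c W hW x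
  rw [← hd] at hV
  have hV0 := d.V_nonneg x
  have hN0 : (0 : ℝ) < N := by exact_mod_cast hN
  have hN1 : (N : ℂ) ≠ 0 := by exact_mod_cast hN.ne'
  have hvr : vr b x ≤ C := by
    refine le_trans ?_ hC
    unfold vr
    refine Finset.sum_le_sum fun p hp => ?_
    have hp0 : (0 : ℝ) < p := by exact_mod_cast (mem_PP.1 hp).2.pos
    have : (1 : ℝ) - 1 / p ≤ 1 := by
      have : 0 ≤ 1 / (p : ℝ) := by positivity
      linarith
    exact mul_le_of_le_one_right (sq_nonneg _) this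
  have hC0 : 0 ≤ C := le_trans (Finset.sum_nonneg fun p _ => sq_nonneg _) hC
  have hyB : |B| ≤ 1 := by rw [abs_of_pos hB0]; linarith
  have a1 := compare d x N K hx hN hK hyB
  have a2 := char_periodic d x hyB
  have a3 := abs_moment d x K (s := 2 * B) (by positivity) hB
  rw [hV] at a2
  have e2 : (2 * B) ^ 2 * d.V x = 4 * vr b x := by rw [← hV]; ring
  rw [e2] at a3
  rw [abs_of_pos hB0] at a1 a2
  have a4 : 2 * (B ^ K / (K.factorial : ℝ) * avgP (prim x) (fun m => |d.S x m| ^ K)) ≤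
      4 * (1 / 2) ^ K * Real.exp (4 * C) := by
    have h6 : B ^ K = (1 / 2 : ℝ) ^ K * (2 * B) ^ K := by
      rw [← mul_pow]
      congr 1
      ring
    have h7 : Real.exp (4 * vr b x) ≤ Real.exp (4 * C) := Real.exp_le_exp.2 (by linarith)
    calc 2 * (B ^ K / (K.factorial : ℝ) * avgP (prim x) (fun m => |d.S x m| ^ K))
        = 2 * (1 / 2 : ℝ) ^ K * ((2 * B) ^ K / (K.factorial : ℝ) *
          avgP (prim x) (fun m => |d.S x m| ^ K)) := by rw [h6]; ring
      _ ≤ 2 * (1 / 2 : ℝ) ^ K * (2 * Real.exp (4 * C)) := by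
          have h8 := a3.trans (mul_le_mul_of_nonneg_left h7 (by norm_num : (0 : ℝ) ≤ 2))
          exact mul_le_mul_of_nonneg_left h8 (by positivity)
      _ = _ := by ring
  have a5 : 2 * B ^ 3 * d.V x ≤ 2 * B * C := by
    calc 2 * B ^ 3 * d.V x = 2 * B * (B ^ 2 * d.V x) := by ring
      _ ≤ 2 * B * C := by
          rw [hV]
          gcongr
  have e3 : (∑ m ∈ Icc 1 N, Complex.exp ((∑ p ∈ PP x, b p * chi c W p m : ℝ) * Complex.I)) =
      N * avg N (fun m => Complex.exp ((B * d.S x m : ℝ) * Complex.I)) := by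
    unfold avg
    rw [mul_div_cancel₀ _ hN1]
    refine Finset.sum_congr rfl fun m _ => ?_
    have hS := dat_S b B hB0 hb c W hW x m
    rw [← hd] at hS
    rw [← hS]
  have e4 : (∑ m ∈ Icc 1 N, Complex.exp ((∑ p ∈ PP x, b p * chi c W p m : ℝ) * Complex.I)) -
      N * Complex.exp (-((vr b x / 2 : ℝ) : ℂ)) =
      N * ((avg N (fun m => Complex.exp ((B * d.S x m : ℝ) * Complex.I)) -
        avgP (prim x) (fun m => Complex.exp ((B * d.S x m : ℝ) * Complex.I))) +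
      (avgP (prim x) (fun m => Complex.exp ((B * d.S x m : ℝ) * Complex.I)) -
        Complex.exp (-((vr b x / 2 : ℝ) : ℂ)))) := by
    rw [e3]; ring
  rw [e4, norm_mul, Complex.norm_natCast]
  have h8 := norm_add_le (avg N (fun m => Complex.exp ((B * d.S x m : ℝ) * Complex.I)) -
        avgP (prim x) (fun m => Complex.exp ((B * d.S x m : ℝ) * Complex.I)))
      (avgP (prim x) (fun m => Complex.exp ((B * d.S x m : ℝ) * Complex.I)) -
        Complex.exp (-((vr b x / 2 : ℝ) : ℂ)))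
  have h9 : ‖(avg N (fun m => Complex.exp ((B * d.S x m : ℝ) * Complex.I)) -
        avgP (prim x) (fun m => Complex.exp ((B * d.S x m : ℝ) * Complex.I))) +
      (avgP (prim x) (fun m => Complex.exp ((B * d.S x m : ℝ) * Complex.I)) -
        Complex.exp (-((vr b x / 2 : ℝ) : ℂ)))‖ ≤
      2 * (K + 1) * (x : ℝ) ^ (2 * K) / N + (4 * (1 / 2) ^ K * Real.exp (4 * C) + 2 * B * C) := by
    linarith
  calc (N : ℝ) * _ ≤ N * (2 * (K + 1) * (x : ℝ) ^ (2 * K) / N +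
      (4 * (1 / 2) ^ K * Real.exp (4 * C) + 2 * B * C)) := by gcongr
    _ = _ := by field_simp

end Pool.Agent.V8H64.GL
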