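import Pool.Agent.V8H64.GL.Tc

set_option autoImplicit false

/-! The final forms. -/

namespace Pool.Agent.V8H64.GL

open Finset Filter Topology Pool.Agent.N430.CLT

lemma log_pow_le (K : ℕ) : ∃ C : ℕ, ∀ z : ℝ, 1 ≤ z → Real.log z ^ K ≤ C * √z := by
  rcases Nat.eq_zero_or_pos K with rfl | hK
  · refine ⟨1, fun z hz => ?_⟩
    rw [pow_zero, Nat.cast_one, one_mul, Real.one_le_sqrt]
    exact hz
  · refine ⟨(2 * K) ^ K, fun z hz => ?_⟩
    have hz0 : 0 ≤ z := by linarith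
    have hK' : (0 : ℝ) < K := by exact_mod_cast hK
    have h := Real.log_le_rpow_div hz0 (show (0 : ℝ) < 1 / (2 * K) by positivity)
    have h1 : Real.log z ≤ 2 * K * z ^ (1 / (2 * (K : ℝ))) := by
      refine h.trans (le_of_eq ?_)
      field_simp
    have h2 := pow_le_pow_left₀ (Real.log_nonneg hz) h1 K
    refine h2.trans (le_of_eq ?_)
    rw [mul_pow]
    push_cast
    congr 1
    rw [← Real.rpow_natCast, ← Real.rpow_mul hz0, Real.sqrt_eq_rpow]
    congr 1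
    field_simp

lemma RF_ell (K : ℕ) : ∃ X₀ : ℕ, ∀ a H : ℕ, X₀ ≤ a → ell a ≤ H → H ≤ 4 * ell a → RF K a H := by
  have h1 : Tendsto (fun x : ℝ => Real.log x ^ 3 / (1 * x + 0)) atTop (𝓝 0) :=
    Real.tendsto_pow_log_div_mul_add_atTop 1 0 3 one_ne_zero
  have h2 : Tendsto (fun a : ℕ => √(a : ℝ)) atTop atTop :=
    Real.tendsto_sqrt_atTop.comp tendsto_natCast_atTop_atTop
  have h3 := (h1.comp h2).eventually
    (gt_mem_nhds (show (0 : ℝ) < 1 / (64 * (K + 1)) by positivity))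
  obtain ⟨X₀, hX⟩ := eventually_atTop.1 h3
  refine ⟨max X₀ 3, fun a H ha h4 h5 => ?_⟩
  have g1 := hX a ((le_max_left _ _).trans ha)
  have ha3 : 3 ≤ a := (le_max_right _ _).trans ha
  have ha0 : (0 : ℝ) < a := by positivity
  have hlog := log_three ha3
  have hs0 : 0 < √(a : ℝ) := Real.sqrt_pos.2 ha0
  simp only [Function.comp_apply, one_mul, add_zero] at g1
  rw [Real.log_sqrt ha0.le, div_lt_iff₀ hs0] at g1
  unfold RF
  have hell : ell a ≤ a / 4 := by
    unfold ell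
    apply div_le_div_of_nonneg_right _ (by norm_num)
    apply div_le_self ha0.le
    exact one_le_pow₀ hlog.le
  have h6 : √((a : ℝ) + H) ≤ 2 * √a := by
    rw [Real.sqrt_le_left (by positivity), mul_pow, Real.sq_sqrt ha0.le]
    linarith
  have h7 : (K : ℝ) * √((a : ℝ) + H) ≤ K * (2 * √a) := by gcongr
  refine h7.trans (le_trans ?_ h4)
  unfold ell
  rw [le_div_iff₀ (by norm_num), le_div_iff₀ (by positivity)]
  have h8 : (Real.log a / 2) ^ 3 = Real.log a ^ 3 / 8 := by ring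
  rw [h8] at g1
  have hK0 : (0 : ℝ) ≤ K := Nat.cast_nonneg K
  have h9 : Real.log a ^ 3 * (8 * (K + 1)) ≤ √a := by
    have h10 : 1 / (64 * ((K : ℝ) + 1)) * √a = √a / (64 * (K + 1)) := by ring
    rw [h10, lt_div_iff₀ (by positivity)] at g1
    have : Real.log a ^ 3 / 8 * (64 * ((K : ℝ) + 1)) = Real.log a ^ 3 * (8 * (K + 1)) := by ring
    linarith
  have h10 : (K : ℝ) * (2 * √a) * 4 * Real.log a ^ 3 ≤ √a * (Real.log a ^ 3 * (8 * (K + 1))) := by
    have : 0 ≤ √(a : ℝ) * Real.log a ^ 3 := by positivity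
    nlinarith
  refine h10.trans ?_
  calc √(a : ℝ) * (Real.log a ^ 3 * (8 * (K + 1))) ≤ √a * √a := by gcongr
    _ = a := Real.mul_self_sqrt ha0.le

/-- counting functions -/
noncomputable def cnt (P : ℕ → Prop) (a H : ℕ) : ℝ :=
  Finset.card (@Finset.filter _ P (Classical.decPred _) (Ioc a (a + H)))

lemma cnt_eq (P : ℕ → Prop) [DecidablePred P] (a H : ℕ) :
    (#{n ∈ Ioc a (a + H) | P n} : ℝ) = cnt P a H := by
  unfold cnt
  congr

lemma cnt_mono {P P' : ℕ → Prop} (h : ∀ n, P n → P' n) (a H : ℕ) : cnt P a H ≤ cnt P' a H := by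
  classical
  rw [← cnt_eq, ← cnt_eq]
  have : {n ∈ Ioc a (a + H) | P n} ⊆ {n ∈ Ioc a (a + H) | P' n} := by
    intro n hn
    rw [mem_filter] at hn ⊢
    exact ⟨hn.1, h n hn.2⟩
  exact_mod_cast card_le_card this

/-- specialization of the vector theorem to one sum with the weights `1` -/
lemma one_clt (Q : ℕ → Prop) (R : ℕ → ℕ → ℕ → Prop)
    (hR : ∀ K K' a H : ℕ, K ≤ K' → R K' a H → R K a H) (g : ℕ → ℕ → ℝ) (hCF : CF Q R g)
    (hPos : Pos Q R) :
    ∀ u ε : ℝ, 0 < ε → ∃ K : ℕ, 1 ≤ K ∧ ∀ a H x : ℕ, 1 ≤ x → R K a H → K ≤ H → x ^ K ≤ H →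
      K ≤ #(PP x) → |cnt (fun n => Q n ∧ ∑ p ∈ PP x, g p n ≤ u * √(#(PP x))) a H -
        Phi u * cnt Q a H| ≤ ε * cnt Q a H := by
  classical
  intro u ε hε
  obtain ⟨K, hK1, hK⟩ := vec_clt Q R hR g hCF hPos 1 (fun _ => u) ε hε
  refine ⟨K, hK1, fun a H x hx hRK hKH hxK hcard => ?_⟩
  have h := hK a H x (fun _ _ => 1) hx hRK hKH hxK (fun _ _ => by simp) (fun _ => by
    simp only [one_pow, Finset.sum_const, nsmul_eq_mul, mul_one]
    exact_mod_cast hcard) (fun i j hij => absurd (Subsingleton.elim i j) hij)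
  rw [cnt_eq, cnt_eq] at h
  simp only [one_pow, Finset.sum_const, nsmul_eq_mul, mul_one, one_mul, Finset.univ_unique,
    Finset.prod_singleton, forall_const] at h
  exact h

/-- **The central limit theorem with the moving threshold for all fundamental discriminants** -/
theorem thr_fd (ε : ℝ) (hε : 0 < ε) : ∃ K : ℕ, 1 ≤ K ∧ ∀ a H : ℕ, (K : ℝ) * √(a + H) ≤ H → ∀ u : ℝ,
    |cnt (fun n => Fd n ∧ ∑ p ∈ PT n, sg p n ≤ u * √(#(PT n))) a H - Phi u * cnt Fd a H| ≤
      ε * cnt Fd a H := by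
  classical
  have main : ∃ K : ℕ, 1 ≤ K ∧ ∀ i : ℕ × ℕ, (RF K i.1 i.2 ∧ K ≤ i.2 ∧
      ∀ j : ℕ, j ≤ K → Real.log (i.1 + i.2) ^ j ≤ i.2) → ∀ u : ℝ,
      |cnt (fun n => Fd n ∧ ∑ p ∈ PT n, sg p n ≤ u * √(#(PT n))) i.1 i.2 - Phi u * cnt Fd i.1 i.2| ≤
        ε * cnt Fd i.1 i.2 := by
    refine unif (I := ℕ × ℕ)
      (fun i u => cnt (fun n => Fd n ∧ ∑ p ∈ PT n, sg p n ≤ u * √(#(PT n))) i.1 i.2)
      (fun i => cnt Fd i.1 i.2)
      (fun K i => RF K i.1 i.2 ∧ K ≤ i.2 ∧ ∀ j : ℕ, j ≤ K → Real.log (i.1 + i.2) ^ j ≤ i.2)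
      ?_ ?_ ?_ ?_ ?_ ε hε
    · rintro K K' i hKK ⟨h1, h2, h3⟩
      exact ⟨RF_mono _ _ _ _ hKK h1, hKK.trans h2, fun j hj => h3 j (hj.trans hKK)⟩
    · intro i u
      exact Nat.cast_nonneg _
    · intro i u
      exact cnt_mono (fun n h => h.1) _ _
    · intro i u v huv
      refine cnt_mono (fun n h => ⟨h.1, h.2.trans ?_⟩) _ _
      gcongr
    · intro u ε hε
      have hg : ∀ p n, |sg p n| ≤ 1 := by
        intro p n
        unfold sg
        split_ifs <;> norm_num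
      obtain ⟨K, hK1, hK⟩ := thr_clt Fd RF RF_mono sg hg (by
        intro u ε hε
        obtain ⟨K, hK1, hK⟩ := one_clt Fd RF RF_mono sg cf_sg pos_fd u ε hε
        refine ⟨K, hK1, fun a H x h1 h2 h3 h4 h5 => ?_⟩
        rw [cnt_eq, cnt_eq]
        exact hK a H x h1 h2 h3 h4 h5) pos_fd RF_ell u ε hε
      refine ⟨K, hK1, fun i hi => ?_⟩
      obtain ⟨h1, h2, h3⟩ := hi
      have h4 := hK i.1 i.2 h1 h2 (h3 K le_rfl)
      rw [cnt_eq, cnt_eq] at h4
      exact h4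
  obtain ⟨K, hK1, hK⟩ := main
  -- the logarithms
  have hlog : ∃ C : ℕ, ∀ j : ℕ, j ≤ K → ∀ z : ℝ, 1 ≤ z → Real.log z ^ j ≤ C * √z := by
    choose C hC using log_pow_le
    refine ⟨∑ j ∈ range (K + 1), C j, fun j hj z hz => (hC j z hz).trans ?_⟩
    have : C j ≤ ∑ j ∈ range (K + 1), C j :=
      Finset.single_le_sum (f := C) (fun _ _ => Nat.zero_le _) (mem_range.2 (by omega))
    have h2 : (C j : ℝ) ≤ (∑ j ∈ range (K + 1), C j : ℕ) := by exact_mod_cast this
    gcongr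
  obtain ⟨C, hC⟩ := hlog
  refine ⟨max K C, hK1.trans (le_max_left _ _), fun a H hR u => ?_⟩
  rcases Nat.eq_zero_or_pos H with rfl | hH
  · unfold cnt
    simp
  · have hK' : (1 : ℝ) ≤ K := by exact_mod_cast hK1
    have hH1 : (1 : ℝ) ≤ H := by exact_mod_cast hH
    have ha0 : (0 : ℝ) ≤ a := Nat.cast_nonneg _
    have hs : 0 ≤ √((a : ℝ) + H) := Real.sqrt_nonneg _
    have r1 : RF K a H := by
      unfold RF
      refine le_trans ?_ hR
      gcongr
      exact le_max_left _ _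
    have r2 : (C : ℝ) * √(a + H) ≤ H := by
      refine le_trans ?_ hR
      gcongr
      exact le_max_right _ _
    have r3 : K ≤ H := by
      unfold RF at r1
      have h1 : √(H : ℝ) ≤ √((a : ℝ) + H) := Real.sqrt_le_sqrt (by linarith)
      have h2 : (K : ℝ) * √(H : ℝ) ≤ H := le_trans (by gcongr) r1
      have h3 : 1 ≤ √(H : ℝ) := Real.one_le_sqrt.2 hH1
      have h4 : √(H : ℝ) * √(H : ℝ) = H := Real.mul_self_sqrt (by linarith)
      have h5 : (K : ℝ) ≤ √(H : ℝ) := by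
        by_contra hcon
        push Not at hcon
        nlinarith
      have h6 : (K : ℝ) ≤ H := by nlinarith
      exact_mod_cast h6
    exact hK (a, H) ⟨r1, r3, fun j hj => (hC j hj _ (by linarith)).trans r2⟩ u

/-! all integers -/

open Classical in
/-- `1` if `p ∤ n` and `-n` is a square modulo `p`, and `-1` otherwise -/
noncomputable def sq1 (p n : ℕ) : ℝ := if ¬ p ∣ n ∧ ∃ x : ℤ, (p : ℤ) ∣ x ^ 2 + n then 1 else -1

/-- no condition -/
def RT (_ _ _ : ℕ) : Prop := True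

lemma approx_all : Approx (fun _ => True) RT := by
  intro δ hδ
  refine ⟨WW ⌈1 / δ⌉₊, WW_pos _, ?_, fun _ => True, fun _ => Iff.rfl, 0, fun a H _ => ?_⟩
  · intro p hp hle
    have h1 : p ≤ ⌈1 / δ⌉₊ := by
      have : (p : ℝ) ≤ ⌈1 / δ⌉₊ := hle.trans (Nat.le_ceil _)
      exact_mod_cast this
    exact (dvd_pow_self p two_ne_zero).trans (sq_dvd_WW hp h1)
  · simp
    positivity

lemma pos_all : Pos (fun _ => True) RT := by
  refine ⟨1, 0, one_pos, fun a H _ _ => ?_⟩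
  simp

lemma sq1_bound {n p : ℕ} (hp : p.Prime) :
    |sq1 p n - J (-1 * n) p| ≤ (if p = 2 then 2 else 0) + (if p ∣ n then 1 else 0) := by
  have hJ := abs_J_le (-1 * n) p
  have h1 : |sq1 p n| ≤ 1 := by
    unfold sq1
    split_ifs <;> norm_num
  by_cases h2 : p = 2
  · rw [if_pos h2]
    have h4 := abs_sub (sq1 p n) (J (-1 * n) p)
    have h5 : (0 : ℝ) ≤ if p ∣ n then 1 else 0 := by split_ifs <;> norm_num
    linarith
  · rw [if_neg h2, zero_add]
    have : Fact p.Prime := ⟨hp⟩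
    unfold sq1 J
    rw [show (-1 : ℤ) * n = -(n : ℤ) by ring, ← jacobiSym.legendreSym.to_jacobiSym]
    by_cases h4 : p ∣ n
    · rw [if_pos h4, if_neg (fun h => h.1 h4)]
      have h5 : legendreSym p (-(n : ℤ)) = 0 := by
        rw [legendreSym.eq_zero_iff, ZMod.intCast_zmod_eq_zero_iff_dvd, dvd_neg]
        exact_mod_cast h4
      rw [h5]
      norm_num
    · rw [if_neg h4]
      have h5 : ((-(n : ℤ) : ℤ) : ZMod p) ≠ 0 := by
        rw [Ne, ZMod.intCast_zmod_eq_zero_iff_dvd, dvd_neg]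
        exact_mod_cast h4
      have h7 : (∃ x : ℤ, (p : ℤ) ∣ x ^ 2 + n) ↔ legendreSym p (-(n : ℤ)) = 1 := by
        rw [legendreSym.eq_one_iff p h5]
        constructor
        · rintro ⟨x, hx⟩
          refine ⟨(x : ZMod p), ?_⟩
          rw [← ZMod.intCast_zmod_eq_zero_iff_dvd] at hx
          push_cast at hx ⊢
          rw [← sq, eq_comm, eq_neg_iff_add_eq_zero]
          exact hx
        · rintro ⟨y, hy⟩
          obtain ⟨z, rfl⟩ := ZMod.intCast_surjective y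
          refine ⟨z, ?_⟩
          rw [← ZMod.intCast_zmod_eq_zero_iff_dvd]
          push_cast at hy ⊢
          rw [sq, ← hy]
          ring
      rcases legendreSym.eq_one_or_neg_one p h5 with h6 | h6
      · rw [if_pos ⟨h4, h7.2 h6⟩, h6]
        norm_num
      · rw [if_neg (fun h => by have := h7.1 h.2; rw [h6] at this; norm_num at this), h6]
        norm_num

theorem cf_sq1 : CF (fun _ => True) RT sq1 := by
  refine cf_transfer _ RT (fun _ _ _ _ _ h => h) _ sq1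
    (cf_J _ RT (fun _ _ _ _ _ h => h) approx_all (-1) (by norm_num)) ?_
  intro n p _ hp
  exact sq1_bound hp

/-- **The central limit theorem with the moving threshold for all integers in short intervals** -/
theorem thr_all (ε : ℝ) (hε : 0 < ε) : ∃ K : ℕ, 1 ≤ K ∧ ∀ a H : ℕ, 2 ≤ a →
    Real.log (a + H) ^ K ≤ H → ∀ u : ℝ,
    |cnt (fun n => ∑ p ∈ PT n, sq1 p n ≤ u * √(#(PT n))) a H - Phi u * H| ≤ ε * H := by
  classical
  have hcnt : ∀ a H : ℕ, cnt (fun _ => True) a H = H := by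
    intro a H
    unfold cnt
    simp
  have main : ∃ K : ℕ, 1 ≤ K ∧ ∀ i : ℕ × ℕ, (K ≤ i.2 ∧
      ∀ j : ℕ, j ≤ K → Real.log (i.1 + i.2) ^ j ≤ i.2) → ∀ u : ℝ,
      |cnt (fun n => ∑ p ∈ PT n, sq1 p n ≤ u * √(#(PT n))) i.1 i.2 - Phi u * i.2| ≤ ε * i.2 := by
    refine unif (I := ℕ × ℕ)
      (fun i u => cnt (fun n => ∑ p ∈ PT n, sq1 p n ≤ u * √(#(PT n))) i.1 i.2)
      (fun i => (i.2 : ℝ))
      (fun K i => K ≤ i.2 ∧ ∀ j : ℕ, j ≤ K → Real.log (i.1 + i.2) ^ j ≤ i.2)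
      ?_ ?_ ?_ ?_ ?_ ε hε
    · rintro K K' i hKK ⟨h2, h3⟩
      exact ⟨hKK.trans h2, fun j hj => h3 j (hj.trans hKK)⟩
    · intro i u
      exact Nat.cast_nonneg _
    · intro i u
      rw [← hcnt i.1 i.2]
      exact cnt_mono (fun n _ => trivial) _ _
    · intro i u v huv
      refine cnt_mono (fun n h => h.trans ?_) _ _
      gcongr
    · intro u ε hε
      have hg : ∀ p n, |sq1 p n| ≤ 1 := by
        intro p n
        unfold sq1
        split_ifs <;> norm_num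
      obtain ⟨K, hK1, hK⟩ := thr_clt (fun _ => True) RT (fun _ _ _ _ _ h => h) sq1 hg (by
        intro u ε hε
        obtain ⟨K, hK1, hK⟩ := one_clt (fun _ => True) RT (fun _ _ _ _ _ h => h) sq1 cf_sq1 pos_all u ε hε
        refine ⟨K, hK1, fun a H x h1 h2 h3 h4 h5 => ?_⟩
        rw [cnt_eq, cnt_eq]
        exact hK a H x h1 h2 h3 h4 h5) pos_all
        (fun _ => ⟨0, fun _ _ _ _ _ => trivial⟩) u ε hε
      refine ⟨K, hK1, fun i hi => ?_⟩
      obtain ⟨h2, h3⟩ := hi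
      have h4 := hK i.1 i.2 trivial h2 (h3 K le_rfl)
      rw [cnt_eq, cnt_eq, hcnt] at h4
      simp only [true_and] at h4
      exact h4
  obtain ⟨K, hK1, hK⟩ := main
  -- the powers of the logarithm
  refine ⟨K + 2 + ⌈Real.log K / Real.log (Real.log 3)⌉₊, by omega, fun a H ha hlog u => ?_⟩
  rcases Nat.eq_zero_or_pos H with rfl | hH
  · unfold cnt
    simp
  · have hz : (3 : ℝ) ≤ (a : ℝ) + H := by
      have h1 : (2 : ℝ) ≤ a := by exact_mod_cast ha
      have h2 : (1 : ℝ) ≤ H := by exact_mod_cast hH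
      linarith
    have hl3 : 1 < Real.log 3 := by
      have := log_three (le_refl 3)
      exact_mod_cast this
    have hlz : Real.log 3 ≤ Real.log ((a : ℝ) + H) := Real.log_le_log (by norm_num) hz
    have hll : 0 < Real.log (Real.log 3) := Real.log_pos hl3
    set m := ⌈Real.log K / Real.log (Real.log 3)⌉₊ with hm
    have h1 : (K : ℝ) ≤ Real.log 3 ^ m := by
      have hK0 : (0 : ℝ) < K := by exact_mod_cast hK1
      rw [← Real.log_le_log_iff hK0 (by positivity), Real.log_pow]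
      have h2 : Real.log K / Real.log (Real.log 3) ≤ m := Nat.le_ceil _
      rwa [div_le_iff₀ hll] at h2
    have h2 : ∀ j : ℕ, j ≤ K + 2 + m → Real.log ((a : ℝ) + H) ^ j ≤ H := fun j hj =>
      (pow_le_pow_right₀ (by linarith) hj).trans hlog
    refine hK (a, H) ⟨?_, fun j hj => h2 j (by omega)⟩ u
    have h3 : (K : ℝ) ≤ H := by
      refine h1.trans (le_trans ?_ (h2 m (by omega)))
      gcongr
    exact_mod_cast h3

end Pool.Agent.V8H64.GL
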