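import Pool.Agent.V8H64.GL.Gen

set_option autoImplicit false

/-! Fundamental discriminants in intervals. -/

namespace Pool.Agent.V8H64.GL

open Finset Pool.Agent.N430.CLT

/-- `-n` is a fundamental discriminant -/
def Fd (n : ℕ) : Prop := (n % 4 = 3 ∧ Squarefree n) ∨
  ∃ k : ℕ, n = 4 * k ∧ (k % 4 = 1 ∨ k % 4 = 2) ∧ Squarefree k

/-- the condition modulo 16 -/
def M16 (n : ℕ) : Prop := n % 4 = 3 ∨ n % 16 = 4 ∨ n % 16 = 8

instance : DecidablePred M16 := fun n => by unfold M16; infer_instance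

lemma fd_iff (n : ℕ) : Fd n ↔ M16 n ∧ ∀ p : ℕ, p.Prime → p ≠ 2 → ¬ p ^ 2 ∣ n := by
  constructor
  · rintro (⟨h1, h2⟩ | ⟨k, rfl, h1, h2⟩)
    · refine ⟨Or.inl h1, fun p hp _ hd => ?_⟩
      rw [Nat.squarefree_iff_prime_squarefree] at h2
      exact h2 p hp (by rwa [← sq])
    · refine ⟨Or.inr (by omega), fun p hp hp2 hd => ?_⟩
      rw [Nat.squarefree_iff_prime_squarefree] at h2
      apply h2 p hp
      rw [← sq]
      have hc : Nat.Coprime (p ^ 2) 4 := by
        rw [show (4 : ℕ) = 2 ^ 2 by norm_num]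
        exact Nat.Coprime.pow 2 2 ((Nat.coprime_primes hp Nat.prime_two).2 hp2)
      exact hc.dvd_of_dvd_mul_left hd
  · rintro ⟨h1, h2⟩
    rcases h1 with h1 | h1
    · refine Or.inl ⟨h1, ?_⟩
      rw [Nat.squarefree_iff_prime_squarefree]
      intro p hp hd
      by_cases hp2 : p = 2
      · subst hp2
        omega
      · exact h2 p hp hp2 (by rwa [sq])
    · refine Or.inr ⟨n / 4, by omega, by omega, ?_⟩
      rw [Nat.squarefree_iff_prime_squarefree]
      intro p hp hd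
      by_cases hp2 : p = 2
      · subst hp2
        omega
      · apply h2 p hp hp2
        rw [sq]
        have : n = 4 * (n / 4) := by omega
        rw [this]
        exact Dvd.dvd.mul_left hd 4

lemma card_dvd (a H d : ℕ) (hd : 0 < d) : (#{n ∈ Ioc a (a + H) | d ∣ n} : ℝ) ≤ H / d + 1 := by
  have h1 : {n ∈ Ioc a (a + H) | d ∣ n} ⊆ (Ioc (a / d) ((a + H) / d)).image (fun k => d * k) := by
    intro n hn
    rw [mem_filter, mem_Ioc] at hn
    obtain ⟨⟨h1, h2⟩, k, rfl⟩ := hn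
    rw [mem_image]
    refine ⟨k, ?_, rfl⟩
    rw [mem_Ioc]
    constructor
    · exact Nat.div_lt_of_lt_mul h1
    · rw [Nat.le_div_iff_mul_le hd, mul_comm]; exact h2
  have h2 := (card_le_card h1).trans card_image_le
  rw [Nat.card_Ioc] at h2
  have h3 : ((a + H) / d : ℕ) - a / d ≤ H / d + 1 := by
    have h4 : (a + H) / d ≤ a / d + H / d + 1 := by
      rw [Nat.add_div hd]
      split_ifs
      · exact le_refl _
      · exact Nat.le_succ _
    generalize (a + H) / d = u at *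
    generalize a / d = v at *
    generalize H / d = w at *
    omega
  have h4 : (#{n ∈ Ioc a (a + H) | d ∣ n} : ℝ) ≤ ((H / d + 1 : ℕ) : ℝ) := by
    exact_mod_cast h2.trans h3
  push_cast at h4
  have h5 : ((H / d : ℕ) : ℝ) ≤ (H : ℝ) / d := Nat.cast_div_le
  linarith

/-- integers with large square divisors -/
lemma card_sq (a H w : ℕ) (hw : 0 < w) (P : ℕ → Prop) [DecidablePred P]
    (hP : ∀ n, a < n → n ≤ a + H → P n → ∃ k, w < k ∧ k ^ 2 ∣ n) :
    (#{n ∈ Ioc a (a + H) | P n} : ℝ) ≤ H / w + √(a + H) := by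
  set s := Nat.sqrt (a + H) with hs
  have h1 : {n ∈ Ioc a (a + H) | P n} ⊆ (Ioc w s).biUnion fun k => {n ∈ Ioc a (a + H) | k ^ 2 ∣ n} := by
    intro n hn
    rw [mem_filter, mem_Ioc] at hn
    obtain ⟨k, hk, hd⟩ := hP n hn.1.1 hn.1.2 hn.2
    rw [mem_biUnion]
    refine ⟨k, ?_, ?_⟩
    · rw [mem_Ioc]
      refine ⟨hk, ?_⟩
      rw [hs, Nat.le_sqrt']
      exact (Nat.le_of_dvd (by omega) hd).trans hn.1.2
    · rw [mem_filter, mem_Ioc]
      exact ⟨hn.1, hd⟩
  have h2 : (#{n ∈ Ioc a (a + H) | P n} : ℝ) ≤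
      ∑ k ∈ Ioc w s, (#{n ∈ Ioc a (a + H) | k ^ 2 ∣ n} : ℝ) := by
    exact_mod_cast (card_le_card h1).trans card_biUnion_le
  refine h2.trans ?_
  have h3 : ∀ k ∈ Ioc w s, (#{n ∈ Ioc a (a + H) | k ^ 2 ∣ n} : ℝ) ≤ H * ((k : ℝ) ^ 2)⁻¹ + 1 := by
    intro k hk
    rw [mem_Ioc] at hk
    have hk0 : 0 < k := by omega
    have := card_dvd a H (k ^ 2) (by positivity)
    push_cast at this
    rwa [div_eq_mul_inv] at this
  refine (Finset.sum_le_sum h3).trans ?_
  rw [Finset.sum_add_distrib, ← Finset.mul_sum, Finset.sum_const, Nat.card_Ioc, nsmul_eq_mul, mul_one]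
  have hs2 : ((s - w : ℕ) : ℝ) ≤ √(a + H) := by
    have h4 : ((s - w : ℕ) : ℝ) ≤ s := by exact_mod_cast Nat.sub_le _ _
    refine h4.trans ?_
    apply Real.le_sqrt_of_sq_le
    have := Nat.sqrt_le' (a + H)
    exact_mod_cast this
  rcases le_or_gt w s with h | h
  · have h5 := sum_Ioc_inv_sq_le_sub (α := ℝ) hw.ne' h
    have h6 : ∑ i ∈ Ioc w s, ((i : ℝ) ^ 2)⁻¹ ≤ (w : ℝ)⁻¹ := by
      have : (0 : ℝ) ≤ (s : ℝ)⁻¹ := by positivity
      linarith
    have h7 : (H : ℝ) * ∑ i ∈ Ioc w s, ((i : ℝ) ^ 2)⁻¹ ≤ H * (w : ℝ)⁻¹ := by gcongr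
    rw [div_eq_mul_inv]
    linarith
  · rw [Finset.Ioc_eq_empty (by omega), Finset.sum_empty, mul_zero, zero_add]
    have : (0 : ℝ) ≤ H / w := by positivity
    linarith

/-- the product which contains the squares of all small primes -/
def WW (w : ℕ) : ℕ := 16 * ∏ p ∈ PP w, p ^ 2

lemma WW_pos (w : ℕ) : 0 < WW w := by
  unfold WW
  have : 0 < ∏ p ∈ PP w, p ^ 2 := Finset.prod_pos fun p hp => pow_pos (mem_PP.1 hp).2.pos 2
  omega

lemma sq_dvd_WW {w p : ℕ} (hp : p.Prime) (h : p ≤ w) : p ^ 2 ∣ WW w :=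
  Dvd.dvd.mul_left (Finset.dvd_prod_of_mem (fun p => p ^ 2) (mem_PP.2 ⟨h, hp⟩)) 16

/-- the condition on the interval -/
def RF (K a H : ℕ) : Prop := (K : ℝ) * √(a + H) ≤ H

lemma RF_mono (K K' a H : ℕ) (h : K ≤ K') (h' : RF K' a H) : RF K a H := by
  unfold RF at *
  have : (K : ℝ) ≤ K' := by exact_mod_cast h
  have h2 : (K : ℝ) * √(a + H) ≤ K' * √(a + H) := by gcongr
  linarith

lemma M16_add (n t : ℕ) : M16 (n + 16 * t) ↔ M16 n := by
  unfold M16
  omega

theorem approx_fd : Approx Fd RF := by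
  classical
  intro δ hδ
  obtain ⟨w, hw⟩ := exists_nat_ge (max (2 / δ) 1)
  have hw1 : (1 : ℝ) ≤ w := (le_max_right _ _).trans hw
  have hw2 : 2 / δ ≤ w := (le_max_left _ _).trans hw
  have hw0 : 0 < w := by exact_mod_cast (lt_of_lt_of_le one_pos hw1)
  refine ⟨WW w, WW_pos w, ?_, fun n => M16 n ∧ ∀ p : ℕ, p.Prime → p ≤ w → p ≠ 2 → ¬ p ^ 2 ∣ n, ?_, w, ?_⟩
  · intro p hp hle
    have h1 : (p : ℝ) ≤ w := by
      refine hle.trans (le_trans ?_ hw2)
      exact div_le_div_of_nonneg_right (by norm_num) hδ.le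
    exact (dvd_pow_self p two_ne_zero).trans (sq_dvd_WW hp (by exact_mod_cast h1))
  · intro n
    have h1 : M16 (n + WW w) ↔ M16 n := by
      unfold WW
      exact M16_add n _
    have h2 : ∀ p : ℕ, p.Prime → p ≤ w → (p ^ 2 ∣ n + WW w ↔ p ^ 2 ∣ n) := fun p hp hle =>
      (Nat.dvd_add_iff_left (sq_dvd_WW hp hle)).symm
    constructor
    · rintro ⟨h3, h4⟩
      exact ⟨h1.1 h3, fun p hp hle h5 h6 => h4 p hp hle h5 ((h2 p hp hle).2 h6)⟩
    · rintro ⟨h3, h4⟩
      exact ⟨h1.2 h3, fun p hp hle h5 h6 => h4 p hp hle h5 ((h2 p hp hle).1 h6)⟩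
  · intro a H hR
    have h1 := card_sq a H w hw0
      (fun n => ¬ (Fd n ↔ M16 n ∧ ∀ p : ℕ, p.Prime → p ≤ w → p ≠ 2 → ¬ p ^ 2 ∣ n)) (by
      intro n _ _ hn
      rw [fd_iff] at hn
      by_contra hcon
      push Not at hcon
      apply hn
      constructor
      · rintro ⟨h3, h4⟩
        exact ⟨h3, fun p hp _ h5 => h4 p hp h5⟩
      · rintro ⟨h3, h4⟩
        refine ⟨h3, fun p hp h5 => ?_⟩
        rcases le_or_gt p w with h6 | h6
        · exact h4 p hp h6 h5
        · exact hcon p h6)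
    refine le_trans (le_of_eq ?_) (h1.trans ?_)
    · congr
    unfold RF at hR
    have hw0' : (0 : ℝ) < w := by linarith
    have hδw : 2 ≤ δ * w := by
      rw [div_le_iff₀ hδ] at hw2
      linarith
    have h2 : (H : ℝ) / w ≤ δ / 2 * H := by
      rw [div_le_iff₀ hw0']
      have : (0 : ℝ) ≤ H := Nat.cast_nonneg _
      nlinarith
    have h3 : √((a : ℝ) + H) ≤ δ / 2 * H := by
      have h4 : 0 ≤ √((a : ℝ) + H) := Real.sqrt_nonneg _
      nlinarith
    linarith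

lemma card_class (a H m r : ℕ) (hr : r < m) : H / m ≤ #{n ∈ Ioc a (a + H) | n % m = r} := by
  have hm : 0 < m := by omega
  set s := (r + m - (a + 1) % m) % m with hs
  have hlt : (a + 1) % m < m := Nat.mod_lt _ hm
  have hs1 : s < m := Nat.mod_lt _ hm
  have hmod : (a + 1 + s) % m = r := by
    rw [hs, Nat.add_mod_mod]
    have h1 : a + 1 + (r + m - (a + 1) % m) = r + m * ((a + 1) / m + 1) := by
      have := Nat.mod_add_div (a + 1) m
      rw [Nat.mul_succ]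
      omega
    rw [h1, Nat.add_mul_mod_self_left, Nat.mod_eq_of_lt hr]
  have hHm : m * (H / m) ≤ H := Nat.mul_div_le H m
  have h1 : (range (H / m)).image (fun k => a + 1 + s + m * k) ⊆ {n ∈ Ioc a (a + H) | n % m = r} := by
    intro n hn
    rw [mem_image] at hn
    obtain ⟨k, hk, rfl⟩ := hn
    rw [mem_range] at hk
    rw [mem_filter, mem_Ioc]
    have h2 : m * k + m ≤ m * (H / m) := by
      rw [← Nat.mul_succ]
      exact Nat.mul_le_mul_left m hk
    refine ⟨⟨by omega, by omega⟩, ?_⟩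
    rw [Nat.add_mul_mod_self_left, hmod]
  have h2 := card_le_card h1
  rw [card_image_of_injective, card_range] at h2
  · exact h2
  · intro i j hij
    dsimp only at hij
    have : m * i = m * j := by omega
    exact Nat.eq_of_mul_eq_mul_left hm this

lemma tele (s : ℕ) : ∑ k ∈ Icc 1 s, (((2 * k + 1 : ℕ) : ℝ) ^ 2)⁻¹ ≤ 1 / 4 := by
  have h : ∀ s : ℕ, ∑ k ∈ Icc 1 s, (((2 * k + 1 : ℕ) : ℝ) ^ 2)⁻¹ ≤ 1 / 4 * (1 - 1 / ((s : ℝ) + 1)) := by
    intro s
    induction s with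
    | zero => simp
    | succ s ih =>
      rw [Finset.sum_Icc_succ_top (by omega)]
      have h1 : (((2 * (s + 1) + 1 : ℕ) : ℝ) ^ 2)⁻¹ ≤ 1 / 4 * (1 / ((s : ℝ) + 1) - 1 / (((s + 1 : ℕ) : ℝ) + 1)) := by
        push_cast
        have hs : (0 : ℝ) ≤ s := Nat.cast_nonneg _
        have e : 1 / 4 * (1 / ((s : ℝ) + 1) - 1 / ((s : ℝ) + 1 + 1)) = (4 * ((s : ℝ) + 1) * (s + 2))⁻¹ := by
          field_simp
          ring
        rw [e]
        apply inv_anti₀ (by positivity)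
        nlinarith
      linarith
  refine (h s).trans ?_
  have : 0 ≤ 1 / ((s : ℝ) + 1) := by positivity
  linarith

open Classical in
/-- there are many fundamental discriminants -/
theorem card_fd (a H : ℕ) (hR : RF 64 a H) (hH : 256 ≤ H) :
    (H : ℝ) / 16 ≤ #{n ∈ Ioc a (a + H) | Fd n} := by
  -- the classes
  have c1 := card_class a H 4 3 (by norm_num)
  have c2 := card_class a H 16 4 (by norm_num)
  have c3 := card_class a H 16 8 (by norm_num)
  have c4 : #{n ∈ Ioc a (a + H) | n % 4 = 3} + #{n ∈ Ioc a (a + H) | n % 16 = 4} +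
      #{n ∈ Ioc a (a + H) | n % 16 = 8} ≤ #{n ∈ Ioc a (a + H) | M16 n} := by
    rw [← card_union_of_disjoint, ← card_union_of_disjoint]
    · apply card_le_card
      intro n hn
      rw [mem_union, mem_union, mem_filter, mem_filter, mem_filter] at hn
      rw [mem_filter]
      rcases hn with (⟨h1, h2⟩ | ⟨h1, h2⟩) | ⟨h1, h2⟩
      · exact ⟨h1, Or.inl h2⟩
      · exact ⟨h1, Or.inr (Or.inl h2)⟩
      · exact ⟨h1, Or.inr (Or.inr h2)⟩
    · rw [Finset.disjoint_left]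
      intro n hn hn2
      rw [mem_union, mem_filter, mem_filter] at hn
      rw [mem_filter] at hn2
      omega
    · rw [Finset.disjoint_left]
      intro n hn hn2
      rw [mem_filter] at hn hn2
      omega
  have c5 : H / 4 + H / 16 + H / 16 ≤ #{n ∈ Ioc a (a + H) | M16 n} :=
    (Nat.add_le_add (Nat.add_le_add c1 c2) c3).trans (le_trans (le_of_eq (by congr)) c4)
  -- the exceptions
  set s := Nat.sqrt (a + H) with hs
  have d1 : {n ∈ Ioc a (a + H) | M16 n} ⊆ {n ∈ Ioc a (a + H) | Fd n} ∪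
      (Icc 1 s).biUnion fun k => {n ∈ Ioc a (a + H) | (2 * k + 1) ^ 2 ∣ n} := by
    intro n hn
    rw [mem_filter, mem_Ioc] at hn
    rw [mem_union, mem_filter, mem_biUnion, mem_Ioc]
    by_cases hF : Fd n
    · exact Or.inl ⟨hn.1, hF⟩
    · right
      rw [fd_iff] at hF
      push Not at hF
      obtain ⟨p, hp, hp2, hd⟩ := hF hn.2
      have hodd : p % 2 = 1 := by
        rcases hp.eq_two_or_odd with h | h
        · exact absurd h hp2
        · exact h
      have hp3 : 3 ≤ p := by have := hp.two_le; omega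
      refine ⟨p / 2, ?_, ?_⟩
      · rw [mem_Icc]
        refine ⟨by omega, ?_⟩
        rw [hs, Nat.le_sqrt']
        have h1 := Nat.le_of_dvd (by omega) hd
        have h2 : (p / 2) ^ 2 ≤ p ^ 2 := Nat.pow_le_pow_left (Nat.div_le_self _ _) 2
        omega
      · rw [mem_filter, mem_Ioc]
        refine ⟨hn.1, ?_⟩
        have : 2 * (p / 2) + 1 = p := by omega
        rw [this]
        exact hd
  have d2 : (#{n ∈ Ioc a (a + H) | M16 n} : ℝ) ≤ #{n ∈ Ioc a (a + H) | Fd n} +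
      ∑ k ∈ Icc 1 s, (#{n ∈ Ioc a (a + H) | (2 * k + 1) ^ 2 ∣ n} : ℝ) := by
    have := (card_le_card d1).trans ((card_union_le _ _).trans
      (Nat.add_le_add_left card_biUnion_le _))
    exact_mod_cast this
  have d3 : ∑ k ∈ Icc 1 s, (#{n ∈ Ioc a (a + H) | (2 * k + 1) ^ 2 ∣ n} : ℝ) ≤ H / 4 + s := by
    have h3 : ∀ k ∈ Icc 1 s, (#{n ∈ Ioc a (a + H) | (2 * k + 1) ^ 2 ∣ n} : ℝ) ≤
        H * (((2 * k + 1 : ℕ) : ℝ) ^ 2)⁻¹ + 1 := by
      intro k _
      have := card_dvd a H ((2 * k + 1) ^ 2) (by positivity)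
      rw [div_eq_mul_inv] at this
      push_cast at this ⊢
      exact this
    refine (Finset.sum_le_sum h3).trans ?_
    rw [Finset.sum_add_distrib, ← Finset.mul_sum, Finset.sum_const, Nat.card_Icc, nsmul_eq_mul, mul_one]
    have h4 : (H : ℝ) * ∑ k ∈ Icc 1 s, (((2 * k + 1 : ℕ) : ℝ) ^ 2)⁻¹ ≤ H * (1 / 4) := by
      gcongr
      exact tele s
    have h5 : ((s + 1 - 1 : ℕ) : ℝ) = s := by simp
    rw [h5]
    linarith
  have hs2 : (s : ℝ) ≤ √(a + H) := by
    apply Real.le_sqrt_of_sq_le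
    have := Nat.sqrt_le' (a + H)
    exact_mod_cast this
  unfold RF at hR
  push_cast at hR
  have hH' : (256 : ℝ) ≤ H := by exact_mod_cast hH
  have e1 : (H : ℝ) / 4 - 1 ≤ ((H / 4 : ℕ) : ℝ) := by
    have : H ≤ 4 * (H / 4) + 3 := by omega
    have h2 : (H : ℝ) ≤ 4 * ((H / 4 : ℕ) : ℝ) + 3 := by exact_mod_cast this
    linarith
  have e2 : (H : ℝ) / 16 - 1 ≤ ((H / 16 : ℕ) : ℝ) := by
    have : H ≤ 16 * (H / 16) + 15 := by omega
    have h2 : (H : ℝ) ≤ 16 * ((H / 16 : ℕ) : ℝ) + 15 := by exact_mod_cast this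
    linarith
  have e3 : ((H / 4 : ℕ) : ℝ) + ((H / 16 : ℕ) : ℝ) + ((H / 16 : ℕ) : ℝ) ≤
      #{n ∈ Ioc a (a + H) | M16 n} := by
    exact_mod_cast c5
  linarith

end Pool.Agent.V8H64.GL
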