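import Pool.Agent.V8H64.GL.St

set_option autoImplicit false

/-! Characteristic functions of sums of Legendre symbols with small weights, over nearly periodic sets. -/

namespace Pool.Agent.V8H64.GL

open Finset Pool.Agent.N430.CLT

open Classical in
/-- nearly periodic sets; `R K a H` is a condition on the interval `(a, a + H]` -/
def Approx (Q : ℕ → Prop) (R : ℕ → ℕ → ℕ → Prop) : Prop :=
  ∀ δ : ℝ, 0 < δ → ∃ W : ℕ, 0 < W ∧ (∀ p : ℕ, p.Prime → (p : ℝ) ≤ 1 / δ → p ∣ W) ∧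
    ∃ Per : ℕ → Prop, (∀ n, Per (n + W) ↔ Per n) ∧ ∃ K₀ : ℕ, ∀ a H : ℕ, R K₀ a H →
      (#{n ∈ Ioc a (a + H) | ¬ (Q n ↔ Per n)} : ℝ) ≤ δ * H

lemma card_filter_Ioc_le (a H : ℕ) (Q : ℕ → Prop) [DecidablePred Q] :
    (#{n ∈ Ioc a (a + H) | Q n} : ℝ) ≤ H := by
  have : #{n ∈ Ioc a (a + H) | Q n} ≤ H := by
    refine (card_filter_le _ _).trans ?_
    rw [Nat.card_Ioc]
    omega
  exact_mod_cast this

lemma norm_cexp_sub {u v : ℝ} (hu : 0 ≤ u) (hv : 0 ≤ v) :
    ‖Complex.exp (-(u : ℂ)) - Complex.exp (-(v : ℂ))‖ ≤ |u - v| := by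
  have e : Complex.exp (-(u : ℂ)) - Complex.exp (-(v : ℂ)) =
      ((Real.exp (-u) - Real.exp (-v) : ℝ) : ℂ) := by push_cast; rfl
  rw [e, Complex.norm_real, Real.norm_eq_abs]
  wlog h : u ≤ v generalizing u v
  · have := this hv hu (by push_cast; rfl) (le_of_lt (not_le.1 h))
    rw [abs_sub_comm, abs_sub_comm u v]
    exact this
  have h1 : Real.exp (-v) ≤ Real.exp (-u) := Real.exp_le_exp.2 (by linarith)
  rw [abs_of_nonneg (by linarith), abs_of_nonpos (by linarith)]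
  have h2 : Real.exp (-u) ≤ 1 := by rw [Real.exp_le_one_iff]; linarith
  have h3 : 1 - (v - u) ≤ Real.exp (-(v - u)) := by
    have := Real.add_one_le_exp (-(v - u))
    linarith
  have h4 : Real.exp (-v) = Real.exp (-u) * Real.exp (-(v - u)) := by
    rw [← Real.exp_add]; congr 1; ring
  rw [h4]
  have h5 : 0 ≤ Real.exp (-u) := (Real.exp_pos _).le
  have h6 : 0 ≤ v - u := by linarith
  nlinarith

open Classical in
/-- **The characteristic function** of sums of Legendre symbols with small weights -/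
theorem cf_gen (Q : ℕ → Prop) (R : ℕ → ℕ → ℕ → Prop)
    (hR : ∀ K K' a H : ℕ, K ≤ K' → R K' a H → R K a H) (hQ : Approx Q R) (σ : ℤ) (hσ : |σ| = 1)
    (C ε : ℝ) (hC : 0 ≤ C) (hε : 0 < ε) :
    ∃ K : ℕ, 1 ≤ K ∧ ∀ (a H x : ℕ) (b : ℕ → ℝ), 1 ≤ x → R K a H → K ≤ H → x ^ K ≤ H →
      (∀ p, K * |b p| ≤ 1) → ∑ p ∈ PP x, b p ^ 2 ≤ C →
      ‖(∑ n ∈ Ioc a (a + H) with Q n, ee (T b x σ n)) -
        #{n ∈ Ioc a (a + H) | Q n} * Complex.exp (-((∑ p ∈ PP x, b p ^ 2) / 2 : ℝ))‖ ≤ ε * H := by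
  -- the choice of K₁
  have hK0 : Filter.Tendsto (fun k : ℕ => 4 * (1 / 2 : ℝ) ^ k * Real.exp (4 * C)) Filter.atTop
      (nhds 0) := by
    have := tendsto_pow_atTop_nhds_zero_of_lt_one (r := (1 / 2 : ℝ)) (by norm_num) (by norm_num)
    simpa using (this.const_mul 4).mul_const (Real.exp (4 * C))
  obtain ⟨k, hk⟩ := (hK0.eventually (gt_mem_nhds (show (0 : ℝ) < ε / 16 by positivity))).exists
  set K₁ := 2 * k with hK₁
  have hKe : Even K₁ := even_two_mul k
  have hk2 : 4 * (1 / 2 : ℝ) ^ K₁ * Real.exp (4 * C) < ε / 16 := by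
    refine lt_of_le_of_lt ?_ hk
    have : (1 / 2 : ℝ) ^ K₁ ≤ (1 / 2 : ℝ) ^ k :=
      pow_le_pow_of_le_one (by norm_num) (by norm_num) (by omega)
    gcongr
  set δ : ℝ := min (1 / 2) (ε / (32 * (1 + C))) with hδ
  have hδ0 : 0 < δ := lt_min (by norm_num) (by positivity)
  have hδ1 : δ ≤ 1 / 2 := min_le_left _ _
  have hδ2 : δ * (1 + C) ≤ ε / 32 := by
    have : δ ≤ ε / (32 * (1 + C)) := min_le_right _ _
    calc δ * (1 + C) ≤ ε / (32 * (1 + C)) * (1 + C) := by gcongr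
      _ = ε / 32 := by field_simp
  obtain ⟨W, hW0, hWp, Per, hPer, K₀, hK₀⟩ := hQ δ hδ0
  set M : ℝ := 32 * W * (K₁ + 1) / ε with hM
  have hW1 : (1 : ℝ) ≤ W := by exact_mod_cast hW0
  have hM0 : 0 < M := by positivity
  obtain ⟨K₂, hK₂⟩ := exists_nat_ge (max (M ^ (2 * K₁ + 1)) (max (64 * W / ε) (max (32 * C / ε) 2)))
  set K := max (max K₀ (2 * K₁ + 1)) (max K₂ (2 * W)) with hKdef
  have k1 : K₀ ≤ K := (le_max_left _ _).trans (le_max_left _ _)
  have k2 : 2 * K₁ + 1 ≤ K := (le_max_right _ _).trans (le_max_left _ _)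
  have k3 : K₂ ≤ K := (le_max_left _ _).trans (le_max_right _ _)
  have k4 : 2 * W ≤ K := (le_max_right _ _).trans (le_max_right _ _)
  have k3' : (K₂ : ℝ) ≤ K := by exact_mod_cast k3
  have q1 : M ^ (2 * K₁ + 1) ≤ K := (le_max_left _ _).trans (hK₂.trans k3')
  have q2 : 64 * W / ε ≤ K := ((le_max_left _ _).trans (le_max_right _ _)).trans (hK₂.trans k3')
  have q3 : 32 * C / ε ≤ K :=
    ((le_max_left _ _).trans ((le_max_right _ _).trans (le_max_right _ _))).trans (hK₂.trans k3')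
  have q4 : (2 : ℝ) ≤ K :=
    ((le_max_right _ _).trans ((le_max_right _ _).trans (le_max_right _ _))).trans (hK₂.trans k3')
  have hKpos : (0 : ℝ) < K := by linarith
  refine ⟨K, by omega, fun a H x b hx hRK hKH hxK hbK hbC => ?_⟩
  have hH0 : (0 : ℝ) < H := lt_of_lt_of_le hKpos (by exact_mod_cast hKH)
  have hKH' : (K : ℝ) ≤ H := by exact_mod_cast hKH
  set B : ℝ := 1 / K with hB
  have hB0 : 0 < B := by positivity
  have hB1 : 2 * B ≤ 1 := by
    rw [hB, mul_one_div, div_le_one hKpos]; exact q4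
  have hbB : ∀ p, |b p| ≤ B := by
    intro p
    rw [hB, le_div_iff₀ hKpos, mul_comm]
    exact hbK p
  -- the reduced weights
  set b' : ℕ → ℝ := fun p => if p ∣ W then 0 else b p with hb'
  have hb'B : ∀ p, |b' p| ≤ B := by
    intro p
    rw [hb']
    dsimp only
    split_ifs
    · rw [abs_zero]; exact hB0.le
    · exact hbB p
  have hb'sq : ∀ p, b' p ^ 2 ≤ b p ^ 2 := by
    intro p
    rw [hb']
    dsimp only
    split_ifs
    · rw [zero_pow two_ne_zero]; exact sq_nonneg _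
    · exact le_refl _
  have hb'C : ∑ p ∈ PP x, b' p ^ 2 ≤ C := (Finset.sum_le_sum fun p _ => hb'sq p).trans hbC
  have h2W : 2 ∣ W := hWp 2 Nat.prime_two (by
    rw [le_div_iff₀ hδ0]
    push_cast
    linarith)
  have hb'W : ∀ p : ℕ, p.Prime → b' p ≠ 0 → p ≠ 2 ∧ ¬ p ∣ W := by
    intro p _ h0
    have : ¬ p ∣ W := by
      intro h
      apply h0
      rw [hb']
      dsimp only
      rw [if_pos h]
    exact ⟨fun h => this (h ▸ h2W), this⟩
  have main := cf_per b' B C hB0 hB1 hb'B σ hσ W hW0 hb'W x K₁ hx hKe hb'C Q Per hPer a H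
    (k4.trans hKH) (δ * H) (hK₀ a H (hR K₀ K a H k1 hRK))
  -- the primes dividing W
  have hcardW : (#{p ∈ PP x | p ∣ W} : ℝ) ≤ W := by
    have : #{p ∈ PP x | p ∣ W} ≤ W := by
      have h1 : {p ∈ PP x | p ∣ W} ⊆ Icc 1 W := by
        intro p hp
        rw [mem_filter, mem_PP] at hp
        rw [mem_Icc]
        exact ⟨hp.1.2.one_le, Nat.le_of_dvd hW0 hp.2⟩
      calc _ ≤ _ := card_le_card h1
        _ = W := by rw [Nat.card_Icc]; omega
    exact_mod_cast this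
  have hT : ∀ n, |T b x σ n - T b' x σ n| ≤ W * B := by
    intro n
    unfold T
    rw [← Finset.sum_sub_distrib]
    have h1 : ∀ p ∈ PP x, b p * J (σ * n) p - b' p * J (σ * n) p =
        if p ∣ W then b p * J (σ * n) p else 0 := by
      intro p _
      rw [hb']
      dsimp only
      split_ifs <;> ring
    rw [Finset.sum_congr rfl h1, ← Finset.sum_filter]
    refine (Finset.abs_sum_le_sum_abs _ _).trans ?_
    have h2 : ∀ p ∈ {p ∈ PP x | p ∣ W}, |b p * J (σ * n) p| ≤ B := by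
      intro p _
      rw [abs_mul]
      calc |b p| * |J (σ * n) p| ≤ B * 1 :=
            mul_le_mul (hbB p) (abs_J_le _ _) (abs_nonneg _) hB0.le
        _ = B := mul_one B
    refine (Finset.sum_le_sum h2).trans ?_
    rw [Finset.sum_const, nsmul_eq_mul]
    gcongr
  have hQH := card_filter_Ioc_le a H Q
  have e1 : ‖(∑ n ∈ Ioc a (a + H) with Q n, ee (T b x σ n)) -
      ∑ n ∈ Ioc a (a + H) with Q n, ee (T b' x σ n)‖ ≤ H * (W * B) := by
    rw [← Finset.sum_sub_distrib]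
    refine (norm_sum_le _ _).trans ?_
    refine (Finset.sum_le_sum fun n _ => (norm_ee_sub _ _).trans (hT n)).trans ?_
    rw [Finset.sum_const, nsmul_eq_mul]
    gcongr
  -- the variances
  have hvv : |(∑ p ∈ PP x, b p ^ 2) / 2 - vr b' x / 2| ≤ (W * B ^ 2 + δ * C) / 2 := by
    rw [← sub_div, abs_div, abs_two]
    apply div_le_div_of_nonneg_right _ (by norm_num)
    unfold vr
    rw [← Finset.sum_sub_distrib]
    refine (Finset.abs_sum_le_sum_abs _ _).trans ?_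
    have h1 : ∀ p ∈ PP x, |b p ^ 2 - b' p ^ 2 * (1 - 1 / (p : ℝ))| ≤
        (if p ∣ W then B ^ 2 else 0) + δ * b p ^ 2 := by
      intro p hp
      rw [mem_PP] at hp
      have hp0 : (0 : ℝ) < p := by exact_mod_cast hp.2.pos
      rw [hb']
      dsimp only
      split_ifs with h
      · rw [zero_pow two_ne_zero, zero_mul, sub_zero, abs_of_nonneg (sq_nonneg _)]
        have h3 : b p ^ 2 ≤ B ^ 2 := by
          rw [← sq_abs]
          exact pow_le_pow_left₀ (abs_nonneg _) (hbB p) 2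
        have : 0 ≤ δ * b p ^ 2 := by positivity
        linarith
      · have h4 : 1 / δ < p := by
          by_contra hcon
          exact h (hWp p hp.2 (not_lt.1 hcon))
        have h5 : 1 / (p : ℝ) ≤ δ := by
          rw [div_le_iff₀ hp0]
          rw [div_lt_iff₀ hδ0] at h4
          linarith
        have h6 : b p ^ 2 - b p ^ 2 * (1 - 1 / (p : ℝ)) = 1 / (p : ℝ) * b p ^ 2 := by ring
        rw [h6, abs_of_nonneg (by positivity), zero_add]
        gcongr
    refine (Finset.sum_le_sum h1).trans ?_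
    rw [Finset.sum_add_distrib, ← Finset.mul_sum, ← Finset.sum_filter, Finset.sum_const,
      nsmul_eq_mul]
    have : (#{p ∈ PP x | p ∣ W} : ℝ) * B ^ 2 ≤ W * B ^ 2 := by gcongr
    have h7 : δ * ∑ p ∈ PP x, b p ^ 2 ≤ δ * C := by gcongr
    linarith
  have hvr0 : 0 ≤ vr b' x := by
    unfold vr
    refine Finset.sum_nonneg fun p hp => mul_nonneg (sq_nonneg _) ?_
    have hp0 : (1 : ℝ) ≤ p := by exact_mod_cast (mem_PP.1 hp).2.one_le
    have : 1 / (p : ℝ) ≤ 1 := by rw [div_le_one (by linarith)]; exact hp0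
    linarith
  have hs0 : 0 ≤ ∑ p ∈ PP x, b p ^ 2 := Finset.sum_nonneg fun p _ => sq_nonneg _
  have e2 : ‖(#{n ∈ Ioc a (a + H) | Q n} : ℂ) * Complex.exp (-((vr b' x / 2 : ℝ) : ℂ)) -
      #{n ∈ Ioc a (a + H) | Q n} * Complex.exp (-((∑ p ∈ PP x, b p ^ 2) / 2 : ℝ))‖ ≤
      H * ((W * B ^ 2 + δ * C) / 2) := by
    rw [← mul_sub, norm_mul, Complex.norm_natCast]
    have h1 := norm_cexp_sub (u := vr b' x / 2) (v := (∑ p ∈ PP x, b p ^ 2) / 2) (by positivity)
      (by positivity)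
    rw [abs_sub_comm] at h1
    have h2 := h1.trans hvv
    have h3 : (0 : ℝ) ≤ (W * B ^ 2 + δ * C) / 2 := by positivity
    exact mul_le_mul hQH h2 (norm_nonneg _) hH0.le
  -- the numerical estimates
  have r1 : (W : ℝ) * B ≤ ε / 64 := by
    rw [hB, mul_one_div, div_le_iff₀ hKpos]
    rw [div_le_iff₀ hε] at q2
    linarith
  have r2 : (W : ℝ) * B ^ 2 ≤ ε / 64 := by
    have h1 : B ≤ 1 := by linarith
    calc (W : ℝ) * B ^ 2 = W * B * B := by ring
      _ ≤ W * B * 1 := by gcongr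
      _ ≤ ε / 64 := by rw [mul_one]; exact r1
  have r3 : 2 * B * C ≤ ε / 16 := by
    rw [hB]
    rw [div_le_iff₀ hε] at q3
    rw [show 2 * (1 / (K : ℝ)) * C = 2 * C / K by ring, div_le_iff₀ hKpos]
    linarith
  have r4 : 4 * (W : ℝ) ≤ ε / 16 * H := by
    rw [div_le_iff₀ hε] at q2
    nlinarith
  have r5 : (W : ℝ) * (2 * (K₁ + 1) * (x : ℝ) ^ (2 * K₁)) ≤ ε / 16 * H := by
    have h1 : (W : ℝ) * (2 * (K₁ + 1) * (x : ℝ) ^ (2 * K₁)) = ε / 16 * (M * (x : ℝ) ^ (2 * K₁)) := by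
      rw [hM]
      field_simp
      ring
    rw [h1]
    apply mul_le_mul_of_nonneg_left _ (by positivity)
    have hx1 : (1 : ℝ) ≤ x := by exact_mod_cast hx
    rcases le_total M x with h | h
    · calc M * (x : ℝ) ^ (2 * K₁) ≤ x * (x : ℝ) ^ (2 * K₁) := by gcongr
        _ = (x : ℝ) ^ (2 * K₁ + 1) := by ring
        _ ≤ (x : ℝ) ^ K := pow_le_pow_right₀ hx1 k2
        _ ≤ H := by exact_mod_cast hxK
    · calc M * (x : ℝ) ^ (2 * K₁) ≤ M * M ^ (2 * K₁) := by gcongr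
        _ = M ^ (2 * K₁ + 1) := by ring
        _ ≤ H := q1.trans hKH'
  have r6 : δ ≤ ε / 32 := le_trans (le_mul_of_one_le_right hδ0.le (by linarith)) hδ2
  have r7 : δ * C ≤ ε / 32 := le_trans (mul_le_mul_of_nonneg_left (by linarith) hδ0.le) hδ2
  have e3 : (∑ n ∈ Ioc a (a + H) with Q n, ee (T b x σ n)) -
        #{n ∈ Ioc a (a + H) | Q n} * Complex.exp (-((∑ p ∈ PP x, b p ^ 2) / 2 : ℝ)) =
      ((∑ n ∈ Ioc a (a + H) with Q n, ee (T b x σ n)) -
        ∑ n ∈ Ioc a (a + H) with Q n, ee (T b' x σ n)) +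
      ((∑ n ∈ Ioc a (a + H) with Q n, ee (T b' x σ n)) -
        #{n ∈ Ioc a (a + H) | Q n} * Complex.exp (-((vr b' x / 2 : ℝ) : ℂ))) +
      ((#{n ∈ Ioc a (a + H) | Q n} : ℂ) * Complex.exp (-((vr b' x / 2 : ℝ) : ℂ)) -
        #{n ∈ Ioc a (a + H) | Q n} * Complex.exp (-((∑ p ∈ PP x, b p ^ 2) / 2 : ℝ))) := by ring
  rw [e3]
  refine (norm_add₃_le).trans ?_
  have t1 : H * (W * B) ≤ ε / 64 * H := by
    have := mul_le_mul_of_nonneg_left r1 hH0.le
    linarith
  have t2 : H * ((W * B ^ 2 + δ * C) / 2) ≤ ε / 16 * H := by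
    have h1 : (W * B ^ 2 + δ * C) / 2 ≤ ε / 16 := by linarith
    have := mul_le_mul_of_nonneg_left h1 hH0.le
    linarith
  have t3 : (H : ℝ) * (4 * (1 / 2) ^ K₁ * Real.exp (4 * C) + 2 * B * C) ≤ ε / 8 * H := by
    have h1 : 4 * (1 / 2) ^ K₁ * Real.exp (4 * C) + 2 * B * C ≤ ε / 8 := by linarith
    have := mul_le_mul_of_nonneg_left h1 hH0.le
    linarith
  have t4 : 2 * (δ * (H : ℝ)) ≤ ε / 16 * H := by
    have := mul_le_mul_of_nonneg_right r6 hH0.le
    linarith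
  have t5 : 0 < ε * (H : ℝ) := by positivity
  linarith

end Pool.Agent.V8H64.GL
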