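import Pool.Agent.N430.CLT.Slutsky
import Mathlib.Probability.Distributions.Gaussian.Multivariate

set_option autoImplicit false

/-! Convergence in law of random vectors on finite sets, from the characteristic functions. -/

namespace Pool.Agent.V8H64.GL

open Finset Filter Topology MeasureTheory ProbabilityTheory Pool.Agent.N430.CLT WithLp

/-- the law of `Y` under the uniform distribution on the finite set `S` (a point mass if `S = ∅`) -/
noncomputable def lawS {r : ℕ} (S : Finset ℕ) (Y : ℕ → Fin r → ℝ) :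
    Measure (EuclideanSpace ℝ (Fin r)) :=
  if S = ∅ then Measure.dirac 0 else
    (S.card : ENNReal)⁻¹ • ∑ m ∈ S, Measure.dirac (toLp 2 (Y m))

instance {r : ℕ} (S : Finset ℕ) (Y : ℕ → Fin r → ℝ) : IsProbabilityMeasure (lawS S Y) := by
  unfold lawS
  split_ifs with h
  · infer_instance
  · constructor
    simp only [Measure.smul_apply, Measure.coe_finsetSum, Finset.sum_apply, measure_univ,
      Finset.sum_const, nsmul_eq_mul, mul_one, smul_eq_mul]
    have h1 : S.card ≠ 0 := by rwa [Ne, Finset.card_eq_zero]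
    exact ENNReal.inv_mul_cancel (by exact_mod_cast h1) (ENNReal.natCast_ne_top _)

lemma charFun_lawS {r : ℕ} {S : Finset ℕ} (hS : S ≠ ∅) (Y : ℕ → Fin r → ℝ)
    (t : EuclideanSpace ℝ (Fin r)) :
    charFun (lawS S Y) t =
      (∑ m ∈ S, Complex.exp ((∑ i, t i * Y m i : ℝ) * Complex.I)) / S.card := by
  rw [charFun_apply]
  unfold lawS
  rw [if_neg hS, integral_smul_measure, integral_finsetSum_measure (by
    intro i _
    exact integrable_dirac (by simp))]
  simp only [integral_dirac]
  rw [ENNReal.toReal_inv, ENNReal.toReal_natCast, Complex.real_smul]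
  push_cast
  rw [div_eq_inv_mul]
  congr 1
  refine Finset.sum_congr rfl fun m _ => ?_
  congr 2
  rw [PiLp.inner_apply]
  push_cast
  refine Finset.sum_congr rfl fun i _ => ?_
  simp

lemma lawS_le {r : ℕ} {S : Finset ℕ} (hS : S ≠ ∅) (Y : ℕ → Fin r → ℝ) (u : Fin r → ℝ)
    [DecidablePred fun m => ∀ i, Y m i ≤ u i] :
    (lawS S Y {x | ∀ i, x i ≤ u i}).toReal = (#{m ∈ S | ∀ i, Y m i ≤ u i} : ℝ) / S.card := by
  have hmeas : MeasurableSet {x : EuclideanSpace ℝ (Fin r) | ∀ i, x i ≤ u i} := by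
    rw [Set.ofPred_forall]
    exact MeasurableSet.iInter fun i => measurableSet_le (by fun_prop) measurable_const
  unfold lawS
  rw [if_neg hS]
  simp only [Measure.smul_apply, Measure.coe_finsetSum, Finset.sum_apply, smul_eq_mul]
  rw [ENNReal.toReal_mul, ENNReal.toReal_inv, ENNReal.toReal_natCast, ENNReal.toReal_sum (by
    intro a _
    exact measure_ne_top _ _)]
  rw [Finset.card_filter]
  push_cast
  rw [div_eq_inv_mul]
  congr 1
  refine Finset.sum_congr rfl fun m _ => ?_
  rw [Measure.dirac_apply' _ hmeas]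
  by_cases h : ∀ i, Y m i ≤ u i
  · rw [Set.indicator_of_mem (by exact h), if_pos h]; simp
  · rw [Set.indicator_of_notMem (by exact h), if_neg h]; simp

lemma std_le {r : ℕ} (u : Fin r → ℝ) :
    (stdGaussian (EuclideanSpace ℝ (Fin r)) {x | ∀ i, x i ≤ u i}).toReal = ∏ i, Phi (u i) := by
  have hmeas : MeasurableSet {x : EuclideanSpace ℝ (Fin r) | ∀ i, x i ≤ u i} := by
    rw [Set.ofPred_forall]
    exact MeasurableSet.iInter fun i => measurableSet_le (by fun_prop) measurable_const
  rw [← map_pi_eq_stdGaussian, Measure.map_apply (by fun_prop) hmeas]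
  have h1 : (toLp 2 : (Fin r → ℝ) → EuclideanSpace ℝ (Fin r)) ⁻¹' {x | ∀ i, x i ≤ u i} =
      Set.univ.pi fun i => Set.Iic (u i) := by
    ext x
    simp only [Set.mem_preimage, Set.mem_setOf_eq, Set.mem_univ_pi, Set.mem_Iic]
  rw [h1, Measure.pi_pi, ENNReal.toReal_prod]
  rfl

lemma std_frontier {r : ℕ} (u : Fin r → ℝ) :
    stdGaussian (EuclideanSpace ℝ (Fin r)) (frontier {x | ∀ i, x i ≤ u i}) = 0 := by
  have hcl : IsClosed {x : EuclideanSpace ℝ (Fin r) | ∀ i, x i ≤ u i} := by
    rw [Set.ofPred_forall]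
    exact isClosed_iInter fun i => isClosed_le (by fun_prop) continuous_const
  have hsub : frontier {x : EuclideanSpace ℝ (Fin r) | ∀ i, x i ≤ u i} ⊆
      ⋃ i, {x | x i = u i} := by
    intro x hx
    rw [hcl.frontier_eq] at hx
    obtain ⟨h1, h2⟩ := hx
    by_contra hcon
    rw [Set.mem_iUnion, not_exists] at hcon
    apply h2
    rw [mem_interior]
    refine ⟨{x | ∀ i, x i < u i}, fun y hy i => (hy i).le, ?_, fun i => ?_⟩
    · rw [Set.ofPred_forall]
      exact isOpen_iInter_of_finite fun i => isOpen_lt (by fun_prop) continuous_const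
    · exact lt_of_le_of_ne (h1 i) (hcon i)
  refine measure_mono_null hsub ?_
  rw [measure_iUnion_null_iff]
  intro i
  have hm : MeasurableSet {x : EuclideanSpace ℝ (Fin r) | x i = u i} :=
    measurableSet_eq_fun (by fun_prop) measurable_const
  rw [← map_pi_eq_stdGaussian, Measure.map_apply (by fun_prop) hm]
  have h1 : (toLp 2 : (Fin r → ℝ) → EuclideanSpace ℝ (Fin r)) ⁻¹' {x | x i = u i} =
      {x : Fin r → ℝ | x i = u i} := by
    ext x
    simp
  rw [h1]
  have := nullSingletonClass_gaussianReal (μ := 0) (v := 1) one_ne_zero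
  exact Measure.pi_hyperplane _ i _

open Classical in
/-- convergence in law -/
theorem levy {r : ℕ} (S : ℕ → Finset ℕ) (Y : ℕ → ℕ → Fin r → ℝ) (hS : ∀ n, S n ≠ ∅)
    (h : ∀ t : Fin r → ℝ, Tendsto (fun n =>
      (∑ m ∈ S n, Complex.exp ((∑ i, t i * Y n m i : ℝ) * Complex.I)) / (S n).card) atTop
      (𝓝 (Complex.exp (-((∑ i, t i ^ 2) / 2 : ℝ))))) (u : Fin r → ℝ) :
    Tendsto (fun n => (#{m ∈ S n | ∀ i, Y n m i ≤ u i} : ℝ) / (S n).card) atTop
      (𝓝 (∏ i, Phi (u i))) := by
  let μ : ℕ → ProbabilityMeasure (EuclideanSpace ℝ (Fin r)) := fun n => ⟨lawS (S n) (Y n), inferInstance⟩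
  let ν : ProbabilityMeasure (EuclideanSpace ℝ (Fin r)) :=
    ⟨stdGaussian (EuclideanSpace ℝ (Fin r)), inferInstance⟩
  have h1 : Tendsto μ atTop (𝓝 ν) := by
    rw [ProbabilityMeasure.tendsto_iff_tendsto_charFun]
    intro t
    have h3 : charFun (ν : Measure (EuclideanSpace ℝ (Fin r))) t =
        Complex.exp (-((∑ i, t i ^ 2) / 2 : ℝ)) := by
      change charFun (stdGaussian (EuclideanSpace ℝ (Fin r))) t = _
      rw [charFun_stdGaussian]
      congr 1
      rw [← Complex.ofReal_pow, EuclideanSpace.real_norm_sq_eq]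
      push_cast
      ring
    rw [h3]
    refine (h (fun i => t i)).congr fun n => ?_
    change _ = charFun (lawS (S n) (Y n)) t
    rw [charFun_lawS (hS n)]
  have h3 := ProbabilityMeasure.tendsto_measure_of_null_frontier_of_tendsto' h1
    (E := {x | ∀ i, x i ≤ u i}) (std_frontier u)
  have h4 := (ENNReal.tendsto_toReal (measure_ne_top
    (ν : Measure (EuclideanSpace ℝ (Fin r))) {x | ∀ i, x i ≤ u i})).comp h3
  have h5 : ((ν : Measure (EuclideanSpace ℝ (Fin r))) {x | ∀ i, x i ≤ u i}).toReal =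
      ∏ i, Phi (u i) := std_le u
  rw [h5] at h4
  refine h4.congr fun n => ?_
  change (lawS (S n) (Y n) {x | ∀ i, x i ≤ u i}).toReal = _
  rw [lawS_le (hS n)]

end Pool.Agent.V8H64.GL
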