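import Pool.Agent.V8H64.GL.Vec
import Pool.Agent.V8H64.GL.Fund

set_option autoImplicit false

/-! Ramified primes are negligible. -/

namespace Pool.Agent.V8H64.GL

open Finset Filter Topology Pool.Agent.N430.CLT

lemma ram_small (C ε : ℝ) (hC : 0 ≤ C) (hε : 0 < ε) :
    ∃ K : ℕ, 1 ≤ K ∧ ∀ (a H x : ℕ) (b : ℕ → ℝ), x ≤ H → (∀ p, K * |b p| ≤ 1) →
      ∑ p ∈ PP x, b p ^ 2 ≤ C → ∑ p ∈ PP x, |b p| * #{n ∈ Ioc a (a + H) | p ∣ n} ≤ ε * H := by
  set η : ℝ := ε / (4 * (C + 1)) with hη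
  have hη0 : 0 < η := by positivity
  have hηC : η * C ≤ ε / 4 := by
    have : η * (C + 1) = ε / 4 := by rw [hη]; field_simp
    nlinarith
  obtain ⟨w, hw⟩ := exists_nat_ge (max (4 / (η * ε)) 1)
  have hw1 : (1 : ℝ) ≤ w := (le_max_right _ _).trans hw
  have hw2 : 4 / (η * ε) ≤ w := (le_max_left _ _).trans hw
  have hw0 : 0 < w := by exact_mod_cast (lt_of_lt_of_le one_pos hw1)
  obtain ⟨K, hK⟩ := exists_nat_ge (max (4 * ((w : ℝ) + 1) / ε) 1)
  have hK1 : (1 : ℝ) ≤ K := (le_max_right _ _).trans hK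
  have hK2 : 4 * ((w : ℝ) + 1) / ε ≤ K := (le_max_left _ _).trans hK
  have hK0 : (0 : ℝ) < K := by linarith
  refine ⟨K, by exact_mod_cast hK1, fun a H x b hxH hb hbC => ?_⟩
  have hH0 : (0 : ℝ) ≤ H := Nat.cast_nonneg _
  have hbB : ∀ p, |b p| ≤ 1 / K := by
    intro p
    rw [le_div_iff₀ hK0, mul_comm]
    exact hb p
  have h1 : ∀ p ∈ PP x, |b p| * (#{n ∈ Ioc a (a + H) | p ∣ n} : ℝ) ≤
      (if p ≤ w then 1 / (K : ℝ) * H else 0) + η / 2 * b p ^ 2 * H +
      (if w < p then 1 / (2 * η) * ((p : ℝ) ^ 2)⁻¹ * H else 0) + 1 / K := by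
    intro p hp
    rw [mem_PP] at hp
    have hp0 : (0 : ℝ) < p := by exact_mod_cast hp.2.pos
    have hp1 : (1 : ℝ) ≤ p := by exact_mod_cast hp.2.one_le
    have h2 := card_dvd a H p hp.2.pos
    have h3 : |b p| * (#{n ∈ Ioc a (a + H) | p ∣ n} : ℝ) ≤ |b p| * (H / p + 1) := by gcongr
    refine h3.trans ?_
    have h4 := hbB p
    have hb0 := abs_nonneg (b p)
    rcases le_or_gt p w with h | h
    · rw [if_pos h, if_neg (not_lt.2 h), add_zero]
      have h5 : |b p| * ((H : ℝ) / p) ≤ 1 / K * H := by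
        have h6 : (H : ℝ) / p ≤ H := div_le_self hH0 hp1
        exact mul_le_mul h4 h6 (by positivity) (by positivity)
      have h7 : 0 ≤ η / 2 * b p ^ 2 * H := by positivity
      linarith
    · rw [if_neg (not_le.2 h), if_pos h, zero_add]
      have h5 : |b p| / p ≤ η / 2 * b p ^ 2 + 1 / (2 * η) * ((p : ℝ) ^ 2)⁻¹ := by
        have h6 : 0 ≤ (η * |b p| - 1 / p) ^ 2 := sq_nonneg _
        have h7 : (η * |b p| - 1 / p) ^ 2 = η ^ 2 * b p ^ 2 - 2 * η * (|b p| / p) + ((p : ℝ) ^ 2)⁻¹ := by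
          rw [sub_sq, mul_pow, sq_abs]
          field_simp
        rw [h7] at h6
        have h8 : η / 2 * b p ^ 2 + 1 / (2 * η) * ((p : ℝ) ^ 2)⁻¹ - |b p| / p =
            (η ^ 2 * b p ^ 2 - 2 * η * (|b p| / p) + ((p : ℝ) ^ 2)⁻¹) / (2 * η) := by
          field_simp
          ring
        have h9 : 0 ≤ (η ^ 2 * b p ^ 2 - 2 * η * (|b p| / p) + ((p : ℝ) ^ 2)⁻¹) / (2 * η) := by
          positivity
        linarith
      have h6 := mul_le_mul_of_nonneg_right h5 hH0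
      have h7 : |b p| * ((H : ℝ) / p + 1) = |b p| / p * H + |b p| := by ring
      rw [h7]
      linarith
  refine (Finset.sum_le_sum h1).trans ?_
  rw [Finset.sum_add_distrib, Finset.sum_add_distrib, Finset.sum_add_distrib, ← Finset.sum_filter,
    ← Finset.sum_filter, Finset.sum_const, Finset.sum_const, nsmul_eq_mul, nsmul_eq_mul,
    ← Finset.sum_mul, ← Finset.mul_sum, ← Finset.sum_mul, ← Finset.mul_sum]
  have c1 : (#{p ∈ PP x | p ≤ w} : ℝ) ≤ w := by
    have : #{p ∈ PP x | p ≤ w} ≤ w := by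
      have h2 : {p ∈ PP x | p ≤ w} ⊆ PP w := by
        intro p hp
        rw [mem_filter, mem_PP] at hp
        rw [mem_PP]
        exact ⟨hp.2, hp.1.2⟩
      exact (card_le_card h2).trans (card_PP_le w)
    exact_mod_cast this
  have c2 : (#(PP x) : ℝ) ≤ H := by exact_mod_cast (card_PP_le x).trans hxH
  have c3 : ∑ p ∈ PP x with w < p, ((p : ℝ) ^ 2)⁻¹ ≤ 1 / w := by
    have h2 : {p ∈ PP x | w < p} ⊆ Ioc w x := by
      intro p hp
      rw [mem_filter, mem_PP] at hp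
      rw [mem_Ioc]
      exact ⟨hp.2, hp.1.1⟩
    have h3 : ∑ p ∈ PP x with w < p, ((p : ℝ) ^ 2)⁻¹ ≤ ∑ p ∈ Ioc w x, ((p : ℝ) ^ 2)⁻¹ :=
      Finset.sum_le_sum_of_subset_of_nonneg h2 fun _ _ _ => by positivity
    refine h3.trans ?_
    rcases le_or_gt w x with h | h
    · have h5 := sum_Ioc_inv_sq_le_sub (α := ℝ) hw0.ne' h
      have : (0 : ℝ) ≤ (x : ℝ)⁻¹ := by positivity
      rw [one_div]
      linarith
    · rw [Finset.Ioc_eq_empty (by omega), Finset.sum_empty]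
      positivity
  have hs : 0 ≤ ∑ p ∈ PP x, b p ^ 2 := Finset.sum_nonneg fun _ _ => sq_nonneg _
  have d1 : (#{p ∈ PP x | p ≤ w} : ℝ) * (1 / K * H) ≤ w * (1 / K * H) := by gcongr
  have d2 : η / 2 * (∑ p ∈ PP x, b p ^ 2) * H ≤ η / 2 * C * H := by gcongr
  have d3 : 1 / (2 * η) * (∑ p ∈ PP x with w < p, ((p : ℝ) ^ 2)⁻¹) * H ≤ 1 / (2 * η) * (1 / w) * H := by
    gcongr
  have d4 : (#(PP x) : ℝ) * (1 / K) ≤ H * (1 / K) := by gcongr
  have e1 : w * (1 / K * (H : ℝ)) + H * (1 / K) ≤ ε / 4 * H := by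
    have h2 : ((w : ℝ) + 1) / K ≤ ε / 4 := by
      rw [div_le_iff₀ hK0]
      rw [div_le_iff₀ hε] at hK2
      linarith
    calc w * (1 / K * (H : ℝ)) + H * (1 / K) = ((w : ℝ) + 1) / K * H := by ring
      _ ≤ _ := by gcongr
  have e2 : η / 2 * C * (H : ℝ) ≤ ε / 8 * H := by
    have : η / 2 * C ≤ ε / 8 := by linarith
    gcongr
  have e3 : 1 / (2 * η) * (1 / w) * (H : ℝ) ≤ ε / 8 * H := by
    have hw0' : (0 : ℝ) < w := by linarith
    have h2 : 1 / (2 * η) * (1 / w) ≤ ε / 8 := by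
      rw [one_div_mul_one_div, div_le_iff₀ (by positivity)]
      rw [div_le_iff₀ (by positivity)] at hw2
      nlinarith
    gcongr
  have e4 : 0 ≤ ε * (H : ℝ) := by positivity
  linarith

/-- perturbation of the functions -/
theorem cf_transfer (Q : ℕ → Prop) (R : ℕ → ℕ → ℕ → Prop)
    (hR : ∀ K K' a H : ℕ, K ≤ K' → R K' a H → R K a H) (g g' : ℕ → ℕ → ℝ) (h : CF Q R g)
    (hd : ∀ n p : ℕ, Q n → p.Prime → |g' p n - g p n| ≤ (if p = 2 then 2 else 0) +
      (if p ∣ n then 1 else 0)) : CF Q R g' := by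
  classical
  intro C ε hC hε
  obtain ⟨K₁, hK₁, h1⟩ := h C (ε / 4) hC (by positivity)
  obtain ⟨K₂, hK₂, h2⟩ := ram_small C (ε / 4) hC (by positivity)
  obtain ⟨K₃, hK₃⟩ := exists_nat_ge (8 / ε)
  refine ⟨max K₁ (max K₂ (max K₃ 1)), le_trans (by omega) (le_max_left K₁ _), ?_⟩
  set K := max K₁ (max K₂ (max K₃ 1)) with hK
  have k1 : K₁ ≤ K := le_max_left _ _
  have k2 : K₂ ≤ K := (le_max_left _ _).trans (le_max_right _ _)
  have k3 : K₃ ≤ K := (le_max_left _ _).trans ((le_max_right _ _).trans (le_max_right _ _))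
  intro a H x b hx hRK hKH hxK hb hbC
  have hbK : ∀ K' : ℕ, K' ≤ K → ∀ p, (K' : ℝ) * |b p| ≤ 1 := by
    intro K' hK' p
    refine le_trans ?_ (hb p)
    gcongr
  have m1 := h1 a H x b hx (hR _ _ _ _ k1 hRK) (k1.trans hKH)
    ((Nat.pow_le_pow_right hx k1).trans hxK) (hbK K₁ k1) hbC
  have hxH : x ≤ H := by
    calc x = x ^ 1 := (pow_one x).symm
      _ ≤ x ^ K := Nat.pow_le_pow_right hx (hK₁.trans k1)
      _ ≤ H := hxK
  have m2 := h2 a H x b hxH (hbK K₂ k2) hbC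
  have hH0 : (0 : ℝ) ≤ H := Nat.cast_nonneg _
  -- the difference
  have m3 : ‖(∑ n ∈ Ioc a (a + H) with Q n, ee (∑ p ∈ PP x, b p * g' p n)) -
      ∑ n ∈ Ioc a (a + H) with Q n, ee (∑ p ∈ PP x, b p * g p n)‖ ≤ ε / 4 * H + ε / 4 * H := by
    rw [← Finset.sum_sub_distrib]
    refine (norm_sum_le _ _).trans ?_
    have e1 : ∀ n ∈ {n ∈ Ioc a (a + H) | Q n}, ‖ee (∑ p ∈ PP x, b p * g' p n) -
        ee (∑ p ∈ PP x, b p * g p n)‖ ≤ 2 * |b 2| + ∑ p ∈ PP x, |b p| * (if p ∣ n then 1 else 0) := by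
      intro n hn
      rw [mem_filter] at hn
      refine (norm_ee_sub _ _).trans ?_
      rw [← Finset.sum_sub_distrib]
      refine (Finset.abs_sum_le_sum_abs _ _).trans ?_
      have e2 : ∀ p ∈ PP x, |b p * g' p n - b p * g p n| ≤
          (if p = 2 then 2 * |b 2| else 0) + |b p| * (if p ∣ n then 1 else 0) := by
        intro p hp
        rw [← mul_sub, abs_mul]
        have e3 := mul_le_mul_of_nonneg_left (hd n p hn.2 (mem_PP.1 hp).2) (abs_nonneg (b p))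
        refine e3.trans ?_
        rw [mul_add]
        by_cases h2 : p = 2
        · subst h2
          rw [if_pos rfl, if_pos rfl]
          linarith
        · rw [if_neg h2, if_neg h2]
          linarith
      refine (Finset.sum_le_sum e2).trans ?_
      rw [Finset.sum_add_distrib]
      have e4 : ∑ p ∈ PP x, (if p = 2 then 2 * |b 2| else 0) ≤ 2 * |b 2| := by
        rw [Finset.sum_ite_eq']
        split_ifs
        · exact le_refl _
        · positivity
      linarith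
    refine (Finset.sum_le_sum e1).trans ?_
    rw [Finset.sum_add_distrib, Finset.sum_const, nsmul_eq_mul]
    have e5 : (#{n ∈ Ioc a (a + H) | Q n} : ℝ) * (2 * |b 2|) ≤ ε / 4 * H := by
      have e6 : 2 * |b 2| ≤ ε / 4 := by
        have e7 := hb 2
        have e8 : 8 / ε ≤ K := hK₃.trans (by exact_mod_cast k3)
        rw [div_le_iff₀ hε] at e8
        have e9 := abs_nonneg (b 2)
        have e10 : 8 * |b 2| ≤ K * ε * |b 2| := mul_le_mul_of_nonneg_right e8 e9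
        nlinarith
      calc (#{n ∈ Ioc a (a + H) | Q n} : ℝ) * (2 * |b 2|) ≤ H * (ε / 4) :=
            mul_le_mul (card_filter_Ioc_le a H Q) e6 (by positivity) hH0
        _ = _ := by ring
    have e6 : ∑ n ∈ Ioc a (a + H) with Q n, ∑ p ∈ PP x, |b p| * (if p ∣ n then 1 else 0) ≤
        ε / 4 * H := by
      refine le_trans ?_ m2
      rw [Finset.sum_comm]
      refine Finset.sum_le_sum fun p _ => ?_
      rw [← Finset.mul_sum]
      apply mul_le_mul_of_nonneg_left _ (abs_nonneg _)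
      rw [← Finset.sum_filter, Finset.sum_const, nsmul_eq_mul, mul_one]
      have : {n ∈ {n ∈ Ioc a (a + H) | Q n} | p ∣ n} ⊆ {n ∈ Ioc a (a + H) | p ∣ n} := by
        intro n hn
        rw [mem_filter, mem_filter] at hn
        rw [mem_filter]
        exact ⟨hn.1.1, hn.2⟩
      exact_mod_cast card_le_card this
    linarith
  set A1 := ∑ n ∈ Ioc a (a + H) with Q n, ee (∑ p ∈ PP x, b p * g' p n)
  set A2 := ∑ n ∈ Ioc a (a + H) with Q n, ee (∑ p ∈ PP x, b p * g p n)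
  set A3 := (#{n ∈ Ioc a (a + H) | Q n} : ℂ) * Complex.exp (-((∑ p ∈ PP x, b p ^ 2) / 2 : ℝ))
  have e : A1 - A3 = (A1 - A2) + (A2 - A3) := by ring
  rw [e]
  refine (norm_add_le _ _).trans ?_
  have : 0 ≤ ε * (H : ℝ) := by positivity
  linarith

end Pool.Agent.V8H64.GL
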