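import Pool.Agent.V8H64.GL.Ram

set_option autoImplicit false

/-! Split primes and the Legendre symbol. -/

namespace Pool.Agent.V8H64.GL

open Finset Filter Topology Pool.Agent.N430.CLT

/-- `p` splits in the quadratic field of discriminant `d` -/
def Spl (d : ℤ) (p : ℕ) : Prop := ¬ (p : ℤ) ∣ d ∧ ∃ x : ℤ, (4 * (p : ℤ)) ∣ x ^ 2 - d

open Classical in
/-- `1` if `p` splits and `-1` otherwise -/
noncomputable def sg (p n : ℕ) : ℝ := if Spl (-(n : ℤ)) p then 1 else -1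

lemma fd_mod {n : ℕ} (h : Fd n) : n % 4 = 3 ∨ n % 4 = 0 := by
  rw [fd_iff] at h
  have := h.1
  unfold M16 at this
  omega

lemma spl_iff {n p : ℕ} (hn : n % 4 = 3 ∨ n % 4 = 0) (hp : p.Prime) (hp2 : p ≠ 2) :
    Spl (-(n : ℤ)) p ↔ jacobiSym (-(n : ℤ)) p = 1 := by
  have : Fact p.Prime := ⟨hp⟩
  have hodd : p % 2 = 1 := by
    rcases hp.eq_two_or_odd with h | h
    · exact absurd h hp2
    · exact h
  rw [← jacobiSym.legendreSym.to_jacobiSym]
  constructor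
  · rintro ⟨h1, x, hx⟩
    have h2 : ((-(n : ℤ) : ℤ) : ZMod p) ≠ 0 := by
      rwa [Ne, ZMod.intCast_zmod_eq_zero_iff_dvd]
    rw [legendreSym.eq_one_iff p h2]
    refine ⟨(x : ZMod p), ?_⟩
    have h3 : (p : ℤ) ∣ x ^ 2 - (-(n : ℤ)) := (Dvd.intro_left 4 rfl).trans hx
    have h4 := (ZMod.intCast_zmod_eq_zero_iff_dvd (x ^ 2 - (-(n : ℤ))) p).2 h3
    rw [Int.cast_sub, sub_eq_zero] at h4
    rw [← h4]
    push_cast
    ring
  · intro h
    have h2 : ¬ (p : ℤ) ∣ -(n : ℤ) := by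
      intro h3
      have h4 : legendreSym p (-(n : ℤ)) = 0 := by
        rw [legendreSym.eq_zero_iff, ZMod.intCast_zmod_eq_zero_iff_dvd]
        exact h3
      rw [h4] at h
      norm_num at h
    refine ⟨h2, ?_⟩
    have h3 : ((-(n : ℤ) : ℤ) : ZMod p) ≠ 0 := by
      rwa [Ne, ZMod.intCast_zmod_eq_zero_iff_dvd]
    rw [legendreSym.eq_one_iff p h3] at h
    obtain ⟨y, hy⟩ := h
    obtain ⟨z, rfl⟩ := ZMod.intCast_surjective y
    have h4 : (p : ℤ) ∣ z ^ 2 - (-(n : ℤ)) := by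
      rw [← ZMod.intCast_zmod_eq_zero_iff_dvd, Int.cast_sub, sub_eq_zero, hy]
      push_cast
      ring
    -- the parity
    have key : ∃ x : ℤ, (p : ℤ) ∣ x ^ 2 - (-(n : ℤ)) ∧ (4 : ℤ) ∣ x ^ 2 - (-(n : ℤ)) := by
      have hpar : ∀ x : ℤ, (x % 2 = (n : ℤ) % 2) → (4 : ℤ) ∣ x ^ 2 - (-(n : ℤ)) := by
        intro x hx
        rcases hn with hn | hn
        · have h5 : x % 2 = 1 := by omega
          obtain ⟨k, hk⟩ : ∃ k, x = 2 * k + 1 := ⟨x / 2, by omega⟩
          subst hk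
          have h6 : (2 * k + 1) ^ 2 - (-(n : ℤ)) = 4 * (k ^ 2 + k) + (1 + n) := by ring
          rw [h6]
          exact Dvd.dvd.add (Dvd.intro _ rfl) (by omega)
        · have h5 : x % 2 = 0 := by omega
          obtain ⟨k, hk⟩ : ∃ k, x = 2 * k := ⟨x / 2, by omega⟩
          subst hk
          have h6 : (2 * k) ^ 2 - (-(n : ℤ)) = 4 * (k ^ 2) + n := by ring
          rw [h6]
          exact Dvd.dvd.add (Dvd.intro _ rfl) (by omega)
      by_cases hz : z % 2 = (n : ℤ) % 2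
      · exact ⟨z, h4, hpar z hz⟩
      · refine ⟨z + p, ?_, hpar _ (by omega)⟩
        have h7 : (z + p) ^ 2 - (-(n : ℤ)) = (z ^ 2 - (-(n : ℤ))) + p * (2 * z + p) := by ring
        rw [h7]
        exact Dvd.dvd.add h4 (Dvd.intro _ rfl)
    obtain ⟨x, hx1, hx2⟩ := key
    refine ⟨x, ?_⟩
    have hc : IsCoprime (4 : ℤ) (p : ℤ) := by
      rw [Int.isCoprime_iff_gcd_eq_one]
      have : Nat.Coprime 4 p := by
        rw [show (4 : ℕ) = 2 ^ 2 by norm_num]
        exact Nat.Coprime.pow_left 2 ((Nat.coprime_primes Nat.prime_two hp).2 (Ne.symm hp2))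
      exact_mod_cast this
    exact hc.mul_dvd hx2 hx1

lemma sg_bound {n p : ℕ} (hn : Fd n) (hp : p.Prime) :
    |sg p n - J (-1 * n) p| ≤ (if p = 2 then 2 else 0) + (if p ∣ n then 1 else 0) := by
  have hJ := abs_J_le (-1 * n) p
  by_cases h2 : p = 2
  · rw [if_pos h2]
    have h3 : |sg p n| ≤ 1 := by
      unfold sg
      split_ifs <;> norm_num
    have h4 := abs_sub (sg p n) (J (-1 * n) p)
    have h5 : (0 : ℝ) ≤ if p ∣ n then 1 else 0 := by split_ifs <;> norm_num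
    linarith
  · rw [if_neg h2, zero_add]
    have h3 := spl_iff (fd_mod hn) hp h2
    unfold sg J
    rw [show (-1 : ℤ) * n = -(n : ℤ) by ring]
    have : Fact p.Prime := ⟨hp⟩
    by_cases h4 : p ∣ n
    · rw [if_pos h4]
      have h5 : jacobiSym (-(n : ℤ)) p = 0 := by
        rw [← jacobiSym.legendreSym.to_jacobiSym, legendreSym.eq_zero_iff,
          ZMod.intCast_zmod_eq_zero_iff_dvd, dvd_neg]
        exact_mod_cast h4
      rw [h5] at h3 ⊢
      rw [if_neg (fun h => by have := h3.1 h; norm_num at this)]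
      norm_num
    · rw [if_neg h4]
      have h5 : ((-(n : ℤ) : ℤ) : ZMod p) ≠ 0 := by
        rw [Ne, ZMod.intCast_zmod_eq_zero_iff_dvd, dvd_neg]
        exact_mod_cast h4
      have h6 := legendreSym.eq_one_or_neg_one p h5
      rw [jacobiSym.legendreSym.to_jacobiSym] at h6
      rcases h6 with h6 | h6
      · rw [if_pos (h3.2 h6), h6]
        norm_num
      · rw [if_neg (fun h => by have := h3.1 h; rw [h6] at this; norm_num at this), h6]
        norm_num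

theorem cf_J (Q : ℕ → Prop) (R : ℕ → ℕ → ℕ → Prop)
    (hR : ∀ K K' a H : ℕ, K ≤ K' → R K' a H → R K a H) (hQ : Approx Q R) (σ : ℤ) (hσ : |σ| = 1) :
    CF Q R (fun p n => J (σ * n) p) := by
  intro C ε hC hε
  obtain ⟨K, hK, h⟩ := cf_gen Q R hR hQ σ hσ C ε hC hε
  exact ⟨K, hK, fun a H x b hx hRK hKH hxK hb hbC => h a H x b hx hRK hKH hxK hb hbC⟩

theorem cf_sg : CF Fd RF sg := by
  refine cf_transfer Fd RF RF_mono _ sg (cf_J Fd RF RF_mono approx_fd (-1) (by norm_num)) ?_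
  intro n p hn hp
  exact sg_bound hn hp

theorem pos_fd : Pos Fd RF := by
  refine ⟨1 / 16, 256, by norm_num, fun a H hR hH => ?_⟩
  have := card_fd a H (RF_mono 64 256 a H (by norm_num) hR) hH
  refine le_trans (by linarith) this

open Classical in
/-- **The uniform central limit theorem for the split primes** -/
theorem clt_fd (r : ℕ) (u : Fin r → ℝ) (ε : ℝ) (hε : 0 < ε) :
    ∃ K : ℕ, 1 ≤ K ∧ ∀ (a H x : ℕ) (c : Fin r → ℕ → ℝ), 1 ≤ x → RF K a H → K ≤ H → x ^ K ≤ H →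
      (∀ i p, |c i p| ≤ 1) → (∀ i, (K : ℝ) ≤ ∑ p ∈ PP x, c i p ^ 2) →
      (∀ i j, i ≠ j → ∑ p ∈ PP x, c i p * c j p = 0) →
      |(#{n ∈ Ioc a (a + H) | Fd n ∧ ∀ i, ∑ p ∈ PP x, c i p * sg p n ≤
          u i * √(∑ p ∈ PP x, c i p ^ 2)} : ℝ) -
        (∏ i, Phi (u i)) * #{n ∈ Ioc a (a + H) | Fd n}| ≤ ε * #{n ∈ Ioc a (a + H) | Fd n} :=
  vec_clt Fd RF RF_mono sg cf_sg pos_fd r u ε hε

end Pool.Agent.V8H64.GL
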