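import Pool.Agent.V8H64.GL.Cf

set_option autoImplicit false

/-! Characteristic functions over sets of integers in an interval which are nearly periodic. -/

namespace Pool.Agent.V8H64.GL

open Finset Pool.Agent.N430.CLT

/-- the Legendre symbol as a real number -/
noncomputable def J (a : ℤ) (p : ℕ) : ℝ := ((jacobiSym a p : ℤ) : ℝ)

lemma abs_J_le (a : ℤ) (p : ℕ) : |J a p| ≤ 1 := abs_jac_le a p

/-- the weighted sum of the Legendre symbols of `σ n` -/
noncomputable def T (b : ℕ → ℝ) (x : ℕ) (σ : ℤ) (n : ℕ) : ℝ := ∑ p ∈ PP x, b p * J (σ * n) p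

/-- the exponential -/
noncomputable def ee (t : ℝ) : ℂ := Complex.exp ((t : ℝ) * Complex.I)

lemma norm_ee (t : ℝ) : ‖ee t‖ = 1 := Complex.norm_exp_ofReal_mul_I t

lemma norm_ee_sub (s t : ℝ) : ‖ee s - ee t‖ ≤ |s - t| := by
  have h1 : ee s - ee t = ee t * (Complex.exp (((s - t : ℝ) : ℂ) * Complex.I) - 1) := by
    unfold ee
    rw [mul_sub, mul_one, ← Complex.exp_add]
    congr 2
    push_cast
    ring
  rw [h1, norm_mul, norm_ee, one_mul]
  have h2 := norm_rem_le 1 (s - t)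
  unfold rem at h2
  simpa using h2

lemma sum_blocks (W : ℕ) (h : ℕ → ℂ) (a N : ℕ) :
    ∑ n ∈ Ioc (a + W) (a + W + W * N), h n = ∑ j ∈ Icc 1 W, ∑ m ∈ Icc 1 N, h (a + j + W * m) := by
  rw [Finset.sum_comm]
  induction N with
  | zero => simp
  | succ N ih =>
    rw [Finset.sum_Icc_succ_top (by omega), ← ih]
    have e1 : Ioc (a + W) (a + W + W * (N + 1)) =
        Ioc (a + W) (a + W + W * N) ∪ Ioc (a + W + W * N) (a + W + W * (N + 1)) := by
      rw [Finset.Ioc_union_Ioc_eq_Ioc (by omega) (by rw [Nat.mul_succ]; omega)]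
    rw [e1, Finset.sum_union]
    · congr 1
      refine (Finset.sum_bij (fun j _ => a + j + W * (N + 1)) ?_ ?_ ?_ ?_).symm
      · intro j hj
        rw [mem_Icc] at hj
        rw [mem_Ioc, Nat.mul_succ]
        omega
      · intro i _ j _ hij
        omega
      · intro n hn
        rw [mem_Ioc, Nat.mul_succ] at hn
        refine ⟨n - a - W * (N + 1), ?_, ?_⟩
        · rw [mem_Icc, Nat.mul_succ]
          omega
        · rw [Nat.mul_succ]
          omega
      · intro j _
        rfl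
    · rw [Finset.disjoint_left]
      intro n h1 h2
      rw [mem_Ioc] at h1 h2
      omega

open Classical in
/-- **Characteristic functions over nearly periodic sets**, for weights which vanish at the primes dividing `2 W` -/
theorem cf_per (b : ℕ → ℝ) (B C : ℝ) (hB0 : 0 < B) (hB : 2 * B ≤ 1) (hb : ∀ p, |b p| ≤ B) (σ : ℤ)
    (hσ : |σ| = 1) (W : ℕ) (hW0 : 0 < W)
    (hW : ∀ p : ℕ, p.Prime → b p ≠ 0 → p ≠ 2 ∧ ¬ p ∣ W) (x K : ℕ) (hx : 1 ≤ x)
    (hK : Even K) (hC : ∑ p ∈ PP x, b p ^ 2 ≤ C) (Q Per : ℕ → Prop) (hPer : ∀ n, Per (n + W) ↔ Per n)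
    (a H : ℕ) (hH : 2 * W ≤ H) (D : ℝ)
    (hD : (#{n ∈ Ioc a (a + H) | ¬ (Q n ↔ Per n)} : ℝ) ≤ D) :
    ‖(∑ n ∈ Ioc a (a + H) with Q n, ee (T b x σ n)) -
      #{n ∈ Ioc a (a + H) | Q n} * Complex.exp (-((vr b x / 2 : ℝ) : ℂ))‖ ≤
      2 * D + 4 * W + W * (2 * (K + 1) * (x : ℝ) ^ (2 * K)) +
        H * (4 * (1 / 2) ^ K * Real.exp (4 * C) + 2 * B * C) := by
  set E0 : ℂ := Complex.exp (-((vr b x / 2 : ℝ) : ℂ)) with hE0
  have hvr0 : 0 ≤ vr b x := by
    unfold vr
    refine Finset.sum_nonneg fun p hp => mul_nonneg (sq_nonneg _) ?_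
    have hp0 : (1 : ℝ) ≤ p := by exact_mod_cast (mem_PP.1 hp).2.one_le
    have : 1 / (p : ℝ) ≤ 1 := by rw [div_le_one (by linarith)]; exact hp0
    linarith
  have hE1 : ‖E0‖ ≤ 1 := by
    rw [hE0, Complex.norm_exp, Complex.neg_re, Complex.ofReal_re, Real.exp_le_one_iff]
    linarith
  -- the function which is summed
  set g : ℕ → ℂ := fun n => ee (T b x σ n) - E0 with hg
  have hg2 : ∀ n, ‖g n‖ ≤ 2 := by
    intro n
    refine (norm_sub_le _ _).trans ?_
    rw [norm_ee]
    linarith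
  have e1 : (∑ n ∈ Ioc a (a + H) with Q n, ee (T b x σ n)) -
      #{n ∈ Ioc a (a + H) | Q n} * E0 = ∑ n ∈ Ioc a (a + H), if Q n then g n else 0 := by
    rw [← Finset.sum_filter, hg, Finset.sum_sub_distrib, Finset.sum_const, nsmul_eq_mul]
  rw [e1]
  -- passage to the periodic set
  have e2 : ‖(∑ n ∈ Ioc a (a + H), if Q n then g n else 0) -
      ∑ n ∈ Ioc a (a + H), if Per n then g n else 0‖ ≤ 2 * D := by
    rw [← Finset.sum_sub_distrib]
    refine (norm_sum_le _ _).trans ?_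
    have h1 : ∀ n ∈ Ioc a (a + H), ‖(if Q n then g n else 0) - (if Per n then g n else 0)‖ ≤
        if ¬ (Q n ↔ Per n) then 2 else 0 := by
      intro n _
      by_cases hq : Q n <;> by_cases hp : Per n <;> simp [hq, hp, hg2 n]
    refine (Finset.sum_le_sum h1).trans ?_
    rw [← Finset.sum_filter, Finset.sum_const, nsmul_eq_mul]
    linarith
  -- passage to complete blocks
  set N := H / W - 1 with hN
  have hdiv : 2 ≤ H / W := (Nat.le_div_iff_mul_le hW0).2 hH
  have hN0 : 0 < N := by omega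
  have hHW : W * (H / W) ≤ H := Nat.mul_div_le H W
  have hHW2 : H < W * (H / W) + W := by
    have := Nat.lt_mul_div_succ H hW0
    rw [Nat.mul_add, Nat.mul_one] at this
    exact this
  have hWN : W * N + W = W * (H / W) := by
    rw [hN, Nat.mul_sub, Nat.mul_one]
    have : W ≤ W * (H / W) := Nat.le_mul_of_pos_right _ (by omega)
    omega
  have hsub : Ioc (a + W) (a + W + W * N) ⊆ Ioc a (a + H) := by
    intro n hn
    rw [mem_Ioc] at hn ⊢
    omega
  have e3 : ‖(∑ n ∈ Ioc a (a + H), if Per n then g n else 0) -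
      ∑ n ∈ Ioc (a + W) (a + W + W * N), if Per n then g n else 0‖ ≤ 4 * W := by
    rw [← Finset.sum_sdiff hsub, add_sub_cancel_right]
    refine (norm_sum_le _ _).trans ?_
    have h1 : ∀ n ∈ Ioc a (a + H) \ Ioc (a + W) (a + W + W * N),
        ‖(if Per n then g n else 0)‖ ≤ 2 := by
      intro n _
      split_ifs
      · exact hg2 n
      · simp
    refine (Finset.sum_le_sum h1).trans ?_
    rw [Finset.sum_const, nsmul_eq_mul, Finset.card_sdiff_of_subset hsub, Nat.card_Ioc, Nat.card_Ioc]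
    have h2 : a + H - a - (a + W + W * N - (a + W)) ≤ 2 * W := by omega
    have h3 : ((a + H - a - (a + W + W * N - (a + W)) : ℕ) : ℝ) ≤ ((2 * W : ℕ) : ℝ) := by
      exact_mod_cast h2
    push_cast at h3
    linarith
  -- the blocks
  have hPerm : ∀ n m, Per (n + W * m) ↔ Per n := by
    intro n m
    induction m with
    | zero => simp
    | succ m ih => rw [Nat.mul_succ, ← add_assoc, hPer, ih]
  have hWσ : ∀ p : ℕ, p.Prime → b p ≠ 0 → p ≠ 2 ∧ ¬ (p : ℤ) ∣ σ * W := by
    intro p hp h0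
    refine ⟨(hW p hp h0).1, fun h => (hW p hp h0).2 ?_⟩
    have h2 : (p : ℤ) ∣ W := by
      rcases (abs_eq (by norm_num : (0 : ℤ) ≤ 1)).1 hσ with h3 | h3
      · rwa [h3, one_mul] at h
      · rwa [h3, neg_one_mul, dvd_neg] at h
    exact_mod_cast h2
  have e4 : ‖∑ n ∈ Ioc (a + W) (a + W + W * N), (if Per n then g n else 0)‖ ≤
      W * (2 * (K + 1) * (x : ℝ) ^ (2 * K) +
        N * (4 * (1 / 2) ^ K * Real.exp (4 * C) + 2 * B * C)) := by
    rw [sum_blocks W _ a N]
    have hC0 : 0 ≤ C := le_trans (Finset.sum_nonneg fun p _ => sq_nonneg _) hC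
    have hR : 0 ≤ 2 * (K + 1) * (x : ℝ) ^ (2 * K) +
        N * (4 * (1 / 2) ^ K * Real.exp (4 * C) + 2 * B * C) := by positivity
    refine (norm_sum_le _ _).trans ?_
    have h1 : ∀ j ∈ Icc 1 W, ‖∑ m ∈ Icc 1 N, (if Per (a + j + W * m) then g (a + j + W * m) else 0)‖ ≤
        2 * (K + 1) * (x : ℝ) ^ (2 * K) +
        N * (4 * (1 / 2) ^ K * Real.exp (4 * C) + 2 * B * C) := by
      intro j _
      by_cases hp : Per (a + j)
      · have h2 : ∀ m ∈ Icc 1 N, (if Per (a + j + W * m) then g (a + j + W * m) else 0) =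
            Complex.exp ((∑ p ∈ PP x, b p * chi (σ * (a + j : ℕ)) (σ * W) p m : ℝ) * Complex.I) -
              E0 := by
          intro m _
          rw [if_pos ((hPerm _ _).2 hp), hg]
          simp only [ee, T, J, chi]
          have h3 : σ * ((a + j + W * m : ℕ) : ℤ) = σ * ((a + j : ℕ) : ℤ) + σ * (W : ℤ) * (m : ℤ) := by
            push_cast
            ring
          rw [h3]
        rw [Finset.sum_congr rfl h2, Finset.sum_sub_distrib, Finset.sum_const, Nat.card_Icc,
          Nat.add_sub_cancel, nsmul_eq_mul]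
        exact cf_class b B C hB0 hB hb _ _ hWσ x N K hx hN0 hK hC
      · have h2 : ∀ m ∈ Icc 1 N, (if Per (a + j + W * m) then g (a + j + W * m) else 0) = 0 := by
          intro m _
          rw [if_neg (fun h => hp ((hPerm _ _).1 h))]
        rw [Finset.sum_congr rfl h2, Finset.sum_const_zero, norm_zero]
        exact hR
    refine (Finset.sum_le_sum h1).trans ?_
    rw [Finset.sum_const, nsmul_eq_mul, Nat.card_Icc, Nat.add_sub_cancel]
  have hC0 : 0 ≤ C := le_trans (Finset.sum_nonneg fun p _ => sq_nonneg _) hC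
  have hWNH : (W : ℝ) * N ≤ H := by
    have : W * N ≤ H := by omega
    exact_mod_cast this
  have hR2 : 0 ≤ 4 * (1 / 2) ^ K * Real.exp (4 * C) + 2 * B * C := by positivity
  have e5 : W * (2 * (K + 1) * (x : ℝ) ^ (2 * K) +
        N * (4 * (1 / 2) ^ K * Real.exp (4 * C) + 2 * B * C)) ≤
      W * (2 * (K + 1) * (x : ℝ) ^ (2 * K)) +
        H * (4 * (1 / 2) ^ K * Real.exp (4 * C) + 2 * B * C) := by
    have := mul_le_mul_of_nonneg_right hWNH hR2
    nlinarith
  set A1 := ∑ n ∈ Ioc a (a + H), if Q n then g n else 0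
  set A2 := ∑ n ∈ Ioc a (a + H), if Per n then g n else 0
  set A3 := ∑ n ∈ Ioc (a + W) (a + W + W * N), if Per n then g n else 0
  have e6 : A1 = (A1 - A2) + (A2 - A3) + A3 := by ring
  rw [e6]
  refine (norm_add_le _ _).trans ?_
  have := norm_add_le (A1 - A2) (A2 - A3)
  linarith

end Pool.Agent.V8H64.GL
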