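import Pool.Agent.V8H64.GL.Thr

set_option autoImplicit false

/-! The central limit theorem with the moving threshold, and uniformity. -/

namespace Pool.Agent.V8H64.GL

open Finset Filter Topology Pool.Agent.N430.CLT MeasureTheory ProbabilityTheory

lemma Phi_nonneg (u : ℝ) : 0 ≤ Phi u := ENNReal.toReal_nonneg

lemma Phi_le_one (u : ℝ) : Phi u ≤ 1 := by
  unfold Phi
  exact ENNReal.toReal_le_of_le_ofReal zero_le_one (by simpa using prob_le_one)

lemma Phi_top : Tendsto Phi atTop (𝓝 1) := by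
  have h := tendsto_cdf_atTop (gaussianReal 0 1)
  refine h.congr fun x => ?_
  rw [cdf_eq_real]
  rfl

lemma Phi_bot : Tendsto Phi atBot (𝓝 0) := by
  have h := tendsto_cdf_atBot (gaussianReal 0 1)
  refine h.congr fun x => ?_
  rw [cdf_eq_real]
  rfl

/-- uniformity in the argument of the distribution function -/
theorem unif {I : Type*} (A : I → ℝ → ℝ) (B : I → ℝ) (cond : ℕ → I → Prop)
    (hcond : ∀ K K' i, K ≤ K' → cond K' i → cond K i) (hA0 : ∀ i u, 0 ≤ A i u)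
    (hAB : ∀ i u, A i u ≤ B i) (hmono : ∀ i u v, u ≤ v → A i u ≤ A i v)
    (h : ∀ u ε : ℝ, 0 < ε → ∃ K : ℕ, 1 ≤ K ∧ ∀ i, cond K i → |A i u - Phi u * B i| ≤ ε * B i)
    (ε : ℝ) (hε : 0 < ε) :
    ∃ K : ℕ, 1 ≤ K ∧ ∀ i, cond K i → ∀ u : ℝ, |A i u - Phi u * B i| ≤ ε * B i := by
  obtain ⟨M₁, hM₁⟩ := (Phi_top.eventually (lt_mem_nhds (show (1 : ℝ) - ε / 4 < 1 by linarith))).exists_forall_of_atTop
  obtain ⟨M₂, hM₂⟩ := (eventually_atBot.1 (Phi_bot.eventually (gt_mem_nhds (show (0 : ℝ) < ε / 4 by linarith))))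
  set δ : ℝ := ε / 4 with hδ
  have hδ0 : 0 < δ := by positivity
  obtain ⟨J, hJ⟩ := exists_nat_ge ((M₁ - M₂) / δ)
  rw [div_le_iff₀ hδ0] at hJ
  -- the grid
  have hgrid : ∀ j : ℕ, ∃ K : ℕ, 1 ≤ K ∧ ∀ i, cond K i →
      |A i (M₂ + j * δ) - Phi (M₂ + j * δ) * B i| ≤ ε / 4 * B i := fun j => h _ _ (by positivity)
  choose Kj hKj1 hKj using hgrid
  refine ⟨∑ j ∈ range (J + 1), Kj j + 1, by omega, fun i hi u => ?_⟩
  have hB0 : 0 ≤ B i := (hA0 i u).trans (hAB i u)
  have hj : ∀ j : ℕ, j ≤ J → |A i (M₂ + j * δ) - Phi (M₂ + j * δ) * B i| ≤ ε / 4 * B i := by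
    intro j hj
    apply hKj j i
    refine hcond _ _ i ?_ hi
    have : Kj j ≤ ∑ j ∈ range (J + 1), Kj j :=
      Finset.single_le_sum (f := Kj) (fun _ _ => Nat.zero_le _) (mem_range.2 (by omega))
    omega
  rcases le_or_gt u M₂ with h1 | h1
  · have h2 := hj 0 (Nat.zero_le _)
    rw [Nat.cast_zero, zero_mul, add_zero] at h2
    have h3 := hM₂ M₂ le_rfl
    have h4 := hM₂ u h1
    have h5 := hmono i u M₂ h1
    have h6 := hA0 i u
    have h7 := Phi_nonneg u
    rw [abs_le] at h2 ⊢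
    have h8 : Phi M₂ * B i ≤ ε / 4 * B i := by gcongr
    have h9 : Phi u * B i ≤ ε / 4 * B i := by gcongr
    have h10 : 0 ≤ Phi u * B i := by positivity
    have h11 : 0 ≤ ε * B i := by positivity
    constructor <;> linarith [h2.1, h2.2]
  · rcases le_or_gt (M₂ + J * δ) u with h1' | h1'
    · have h2 := hj J le_rfl
      have h3 := hM₁ (M₂ + J * δ) (by linarith)
      have h4 := hM₁ u (by linarith)
      have h5 := hmono i _ u h1'
      have h6 := hAB i u
      have h7 := Phi_le_one u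
      rw [abs_le] at h2 ⊢
      have h8 : (1 - ε / 4) * B i ≤ Phi (M₂ + J * δ) * B i := by gcongr
      have h9 : (1 - ε / 4) * B i ≤ Phi u * B i := by gcongr
      have h10 : Phi u * B i ≤ 1 * B i := by gcongr
      have h11 : 0 ≤ ε * B i := by positivity
      constructor <;> linarith [h2.1, h2.2]
    · set j := ⌊(u - M₂) / δ⌋₊ with hjdef
      have hq0 : 0 ≤ (u - M₂) / δ := by
        apply div_nonneg _ hδ0.le
        linarith
      have h2 : (j : ℝ) ≤ (u - M₂) / δ := Nat.floor_le hq0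
      have h3 : (u - M₂) / δ < j + 1 := Nat.lt_floor_add_one _
      rw [le_div_iff₀ hδ0] at h2
      rw [div_lt_iff₀ hδ0] at h3
      have h4 : j < J := by
        have : (j : ℝ) * δ < J * δ := by linarith
        have := lt_of_mul_lt_mul_right this hδ0.le
        exact_mod_cast this
      have g1 := hj j (by omega)
      have g2 := hj (j + 1) (by omega)
      push_cast at g2
      have m1 := hmono i (M₂ + j * δ) u (by linarith)
      have m2 := hmono i u (M₂ + (j + 1) * δ) (by linarith)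
      have p1 := Phi_lip (s := M₂ + j * δ) (t := u) (by linarith)
      have p2 := Phi_lip (s := u) (t := M₂ + (j + 1) * δ) (by linarith)
      have q1 : Phi u * B i ≤ (Phi (M₂ + j * δ) + δ) * B i := by
        apply mul_le_mul_of_nonneg_right _ hB0
        linarith
      have q2 : (Phi (M₂ + (j + 1) * δ) - δ) * B i ≤ Phi u * B i := by
        apply mul_le_mul_of_nonneg_right _ hB0
        linarith
      rw [abs_le] at g1 g2 ⊢
      have h11 : 0 ≤ ε * B i := by positivity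
      rw [hδ] at q1 q2 g1 g2 m1 m2
      constructor <;> nlinarith [g1.1, g1.2, g2.1, g2.2]

lemma polylog (K : ℕ) : ∃ X₀ : ℕ, ∀ a : ℕ, X₀ ≤ a → Real.log a ^ (4 * K) + K + 1 ≤ ell a := by
  have h2 : Tendsto (fun a : ℕ => Real.log (a : ℝ)) atTop atTop :=
    Real.tendsto_log_atTop.comp tendsto_natCast_atTop_atTop
  have h1 : Tendsto (fun x : ℝ => Real.log x ^ (4 * K + 4) / (1 * x + 0)) atTop (𝓝 0) :=
    Real.tendsto_pow_log_div_mul_add_atTop 1 0 (4 * K + 4) one_ne_zero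
  have h3 := (h1.comp tendsto_natCast_atTop_atTop).eventually
    (gt_mem_nhds (show (0 : ℝ) < 1 by norm_num))
  have h4 := h2.eventually_ge_atTop (4 * (K + 2))
  obtain ⟨X₀, hX⟩ := eventually_atTop.1 (h3.and h4)
  refine ⟨max X₀ 1, fun a ha => ?_⟩
  obtain ⟨g1, g2⟩ := hX a ((le_max_left _ _).trans ha)
  have ha1 : 1 ≤ a := (le_max_right _ _).trans ha
  have ha0 : (0 : ℝ) < a := by exact_mod_cast ha1
  simp only [Function.comp_apply, one_mul, add_zero] at g1
  set s := Real.log a with hs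
  rw [div_lt_one ha0] at g1
  have hK0 : (0 : ℝ) ≤ K := Nat.cast_nonneg K
  have hs1 : 1 ≤ s := by linarith
  have hs0 : 0 < s := by linarith
  unfold ell
  rw [← hs, le_div_iff₀ (by norm_num), le_div_iff₀ (by positivity)]
  have h5 : 1 ≤ s ^ (4 * K) := one_le_pow₀ hs1
  have h6 : (s ^ (4 * K) + K + 1) * 4 ≤ s ^ (4 * K) * s := by
    calc (s ^ (4 * K) + K + 1) * 4 ≤ s ^ (4 * K) * (4 * (K + 2)) := by nlinarith
      _ ≤ s ^ (4 * K) * s := by gcongr
  calc (s ^ (4 * K) + K + 1) * 4 * s ^ 3 ≤ s ^ (4 * K) * s * s ^ 3 := by gcongr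
    _ = s ^ (4 * K + 4) := by ring
    _ ≤ a := g1.le

lemma thr_le {a : ℕ} (h : 3 ≤ a) : thr a ≤ Real.log a ^ 4 := by
  unfold thr
  have h1 := log_three h
  have h2 : Real.log (Real.log a) ≤ Real.log a := by
    have := Real.log_le_sub_one_of_pos (show (0 : ℝ) < Real.log a by linarith)
    linarith
  have h3 : 0 ≤ Real.log (Real.log a) := (Real.log_pos h1).le
  calc Real.log a ^ 2 * Real.log (Real.log a) ^ 2 ≤ Real.log a ^ 2 * Real.log a ^ 2 := by gcongr
    _ = _ := by ring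

lemma thr_tendsto : Tendsto thr atTop atTop := by
  have h2 : Tendsto (fun a : ℕ => Real.log (a : ℝ)) atTop atTop :=
    Real.tendsto_log_atTop.comp tendsto_natCast_atTop_atTop
  have h3 : Tendsto (fun a : ℕ => Real.log (Real.log (a : ℝ))) atTop atTop :=
    Real.tendsto_log_atTop.comp h2
  have h4 := ((tendsto_pow_atTop two_ne_zero).comp h2).atTop_mul_atTop₀
    ((tendsto_pow_atTop two_ne_zero).comp h3)
  exact h4

lemma card_block (K : ℕ) : ∃ X₀ : ℕ, ∀ a : ℕ, X₀ ≤ a → 2 ≤ ⌈thr a⌉₊ ∧ 0 < thr a ∧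
    K ≤ #(PP (⌈thr a⌉₊ - 1)) := by
  have h1 : Tendsto (fun y : ℕ => #(PP y)) atTop atTop := by
    have h := Nat.tendsto_primeCounting
    refine h.congr fun y => ?_
    unfold PP
    rw [Nat.primeCounting, Nat.primeCounting', Nat.count_eq_card_filter_range]
  obtain ⟨y₀, hy₀⟩ := eventually_atTop.1 (h1.eventually_ge_atTop K)
  obtain ⟨X₀, hX₀⟩ := eventually_atTop.1 (thr_tendsto.eventually_ge_atTop ((y₀ : ℝ) + 2))
  refine ⟨X₀, fun a ha => ?_⟩
  have h2 := hX₀ a ha
  have h3 : (0 : ℝ) ≤ y₀ := Nat.cast_nonneg _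
  have h4 : y₀ + 2 ≤ ⌈thr a⌉₊ := by
    have : ((y₀ + 2 : ℕ) : ℝ) ≤ ⌈thr a⌉₊ := by
      push_cast
      exact h2.trans (Nat.le_ceil _)
    exact_mod_cast this
  exact ⟨by omega, by linarith, hy₀ _ (by omega)⟩

open Classical in
/-- **The central limit theorem with the moving threshold** -/
theorem thr_clt (Q : ℕ → Prop) (R : ℕ → ℕ → ℕ → Prop)
    (hR : ∀ K K' a H : ℕ, K ≤ K' → R K' a H → R K a H) (g : ℕ → ℕ → ℝ) (hg : ∀ p n, |g p n| ≤ 1)
    (hclt : ∀ u ε : ℝ, 0 < ε → ∃ K : ℕ, 1 ≤ K ∧ ∀ a H x : ℕ, 1 ≤ x → R K a H → K ≤ H → x ^ K ≤ H →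
      K ≤ #(PP x) → |(#{n ∈ Ioc a (a + H) | Q n ∧ ∑ p ∈ PP x, g p n ≤ u * √(#(PP x))} : ℝ) -
        Phi u * #{n ∈ Ioc a (a + H) | Q n}| ≤ ε * #{n ∈ Ioc a (a + H) | Q n})
    (hPos : Pos Q R)
    (hRl : ∀ K : ℕ, ∃ X₀ : ℕ, ∀ a H : ℕ, X₀ ≤ a → ell a ≤ H → H ≤ 4 * ell a → R K a H)
    (u ε : ℝ) (hε : 0 < ε) :
    ∃ K : ℕ, 1 ≤ K ∧ ∀ a H : ℕ, R K a H → K ≤ H → Real.log (a + H) ^ K ≤ H →
      |(#{n ∈ Ioc a (a + H) | Q n ∧ ∑ p ∈ PT n, g p n ≤ u * √(#(PT n))} : ℝ) -
        Phi u * #{n ∈ Ioc a (a + H) | Q n}| ≤ ε * #{n ∈ Ioc a (a + H) | Q n} := by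
  obtain ⟨κ, Kp, hκ, hKp⟩ := hPos
  -- the base case
  have base : ∀ ε : ℝ, 0 < ε → ∃ K X₀ : ℕ, 1 ≤ K ∧ 3 ≤ X₀ ∧ ∀ a H : ℕ, X₀ ≤ a → H ≤ 4 * ell a →
      R K a H → K ≤ H → Real.log a ^ (4 * K) ≤ H →
      |(#{n ∈ Ioc a (a + H) | Q n ∧ ∑ p ∈ PT n, g p n ≤ u * √(#(PT n))} : ℝ) -
        Phi u * #{n ∈ Ioc a (a + H) | Q n}| ≤ ε * #{n ∈ Ioc a (a + H) | Q n} := by
    intro ε hε
    set η : ℝ := ε / 2 with hη
    have hη0 : 0 < η := by positivity
    obtain ⟨K₁, hK₁, h₁⟩ := hclt (u + η) (ε / 2) (by positivity)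
    obtain ⟨K₂, hK₂, h₂⟩ := hclt (u - η) (ε / 2) (by positivity)
    obtain ⟨Y₀, hY₀⟩ := exists_nat_ge (((|u| + 1) / η) ^ 2)
    obtain ⟨X₁, hX₁3, hX₁⟩ := thr_block
    obtain ⟨X₂, hX₂⟩ := card_block (max (max K₁ K₂) (max Y₀ 1))
    refine ⟨max K₁ K₂, max X₁ X₂, hK₁.trans (le_max_left _ _), hX₁3.trans (le_max_left _ _), ?_⟩
    intro a H ha hH hRK hKH hlog
    have ha1 : X₁ ≤ a := (le_max_left _ _).trans ha
    have ha3 : 3 ≤ a := hX₁3.trans ha1
    obtain ⟨b1, b2, b3⟩ := hX₂ a ((le_max_right _ _).trans ha)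
    set x := ⌈thr a⌉₊ - 1 with hx
    have hx1 : 1 ≤ x := by omega
    have hY : ((#(PP x) : ℕ) : ℝ) ≥ ((|u| + 1) / η) ^ 2 := by
      have : Y₀ ≤ #(PP x) := ((le_max_left _ _).trans (le_max_right _ _)).trans b3
      have h2 : (Y₀ : ℝ) ≤ #(PP x) := by exact_mod_cast this
      linarith
    have hxlog : (x : ℝ) ≤ Real.log a ^ 4 := by
      refine le_trans ?_ (thr_le ha3)
      have h2 : (⌈thr a⌉₊ : ℝ) < thr a + 1 := Nat.ceil_lt_add_one b2.le
      rw [hx, Nat.cast_sub (by omega), Nat.cast_one]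
      linarith
    have hlog1 : 1 ≤ Real.log a ^ 4 := one_le_pow₀ (log_three ha3).le
    have hxK : x ^ (max K₁ K₂) ≤ H := by
      have h2 : ((x ^ (max K₁ K₂) : ℕ) : ℝ) ≤ H := by
        push_cast
        calc (x : ℝ) ^ (max K₁ K₂) ≤ (Real.log a ^ 4) ^ (max K₁ K₂) := by gcongr
          _ = Real.log a ^ (4 * max K₁ K₂) := by rw [← pow_mul]
          _ ≤ H := hlog
      exact_mod_cast h2
    have g1 := h₁ a H x hx1 (hR _ _ _ _ (le_max_left _ _) hRK) ((le_max_left _ _).trans hKH)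
      ((Nat.pow_le_pow_right hx1 (le_max_left _ _)).trans hxK)
      (((le_max_left _ _).trans (le_max_left _ _)).trans b3)
    have g2 := h₂ a H x hx1 (hR _ _ _ _ (le_max_right _ _) hRK) ((le_max_right _ _).trans hKH)
      ((Nat.pow_le_pow_right hx1 (le_max_right _ _)).trans hxK)
      (((le_max_right _ _).trans (le_max_left _ _)).trans b3)
    -- the comparison on the block
    have hcomp : ∀ n ∈ Ioc a (a + H), |∑ p ∈ PT n, g p n - ∑ p ∈ PP x, g p n| ≤ 1 ∧
        √(#(PP x)) ≤ √(#(PT n)) ∧ √(#(PT n)) ≤ √(#(PP x)) + 1 := by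
      intro n hn
      rw [mem_Ioc] at hn
      have hn2 : (n : ℝ) ≤ a + 4 * ell a := by
        have : (n : ℝ) ≤ a + H := by exact_mod_cast hn.2
        linarith
      have hb := hX₁ a n ha1 (by omega) hn2
      refine ⟨PT_sum ha3 (by omega) hb b2 (fun p => g p n) (fun p => hg p n), ?_, ?_⟩
      · apply Real.sqrt_le_sqrt
        exact_mod_cast (PT_card ha3 (by omega) hb b2).1
      · rw [Real.sqrt_le_left (by positivity)]
        have h3 : ((#(PT n) : ℕ) : ℝ) ≤ #(PP x) + 1 := by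
          exact_mod_cast (PT_card ha3 (by omega) hb b2).2
        have h4 := Real.sq_sqrt (show (0 : ℝ) ≤ #(PP x) by positivity)
        have h5 := Real.sqrt_nonneg (#(PP x) : ℝ)
        nlinarith
    have hroot : (|u| + 1) ≤ η * √(#(PP x)) := by
      have h3 : (|u| + 1) / η ≤ √(#(PP x)) := Real.le_sqrt_of_sq_le hY
      rw [div_le_iff₀ hη0] at h3
      linarith
    have m1 : (#{n ∈ Ioc a (a + H) | Q n ∧ ∑ p ∈ PT n, g p n ≤ u * √(#(PT n))} : ℝ) ≤
        #{n ∈ Ioc a (a + H) | Q n ∧ ∑ p ∈ PP x, g p n ≤ (u + η) * √(#(PP x))} := by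
      have : {n ∈ Ioc a (a + H) | Q n ∧ ∑ p ∈ PT n, g p n ≤ u * √(#(PT n))} ⊆
          {n ∈ Ioc a (a + H) | Q n ∧ ∑ p ∈ PP x, g p n ≤ (u + η) * √(#(PP x))} := by
        intro n hn
        rw [mem_filter] at hn ⊢
        obtain ⟨c1, c2, c3⟩ := hcomp n hn.1
        refine ⟨hn.1, hn.2.1, ?_⟩
        have c4 := (abs_le.1 c1).1
        have c5 : u * √(#(PT n)) ≤ u * √(#(PP x)) + |u| := by
          have : u * (√(#(PT n)) - √(#(PP x))) ≤ |u| * 1 :=
            (le_abs_self _).trans (by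
              rw [abs_mul]
              apply mul_le_mul_of_nonneg_left _ (abs_nonneg _)
              rw [abs_of_nonneg (by linarith)]
              linarith)
          linarith
        have := hn.2.2
        linarith
      exact_mod_cast card_le_card this
    have m2 : (#{n ∈ Ioc a (a + H) | Q n ∧ ∑ p ∈ PP x, g p n ≤ (u - η) * √(#(PP x))} : ℝ) ≤
        #{n ∈ Ioc a (a + H) | Q n ∧ ∑ p ∈ PT n, g p n ≤ u * √(#(PT n))} := by
      have : {n ∈ Ioc a (a + H) | Q n ∧ ∑ p ∈ PP x, g p n ≤ (u - η) * √(#(PP x))} ⊆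
          {n ∈ Ioc a (a + H) | Q n ∧ ∑ p ∈ PT n, g p n ≤ u * √(#(PT n))} := by
        intro n hn
        rw [mem_filter] at hn ⊢
        obtain ⟨c1, c2, c3⟩ := hcomp n hn.1
        refine ⟨hn.1, hn.2.1, ?_⟩
        have c4 := (abs_le.1 c1).2
        have c5 : u * √(#(PP x)) - |u| ≤ u * √(#(PT n)) := by
          have : -(|u| * 1) ≤ u * (√(#(PT n)) - √(#(PP x))) := by
            refine le_trans ?_ (neg_abs_le _)
            rw [abs_mul]
            apply neg_le_neg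
            apply mul_le_mul_of_nonneg_left _ (abs_nonneg _)
            rw [abs_of_nonneg (by linarith)]
            linarith
          linarith
        have := hn.2.2
        linarith
      exact_mod_cast card_le_card this
    have l1 := Phi_lip (s := u) (t := u + η) (by linarith)
    have l2 := Phi_lip (s := u - η) (t := u) (by linarith)
    set B : ℝ := (#{n ∈ Ioc a (a + H) | Q n} : ℝ) with hB
    have hB0 : 0 ≤ B := Nat.cast_nonneg _
    rw [abs_le] at g1 g2 ⊢
    have t1 : Phi (u + η) * B ≤ (Phi u + η) * B := by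
      apply mul_le_mul_of_nonneg_right _ hB0
      linarith
    have t2 : (Phi u - η) * B ≤ Phi (u - η) * B := by
      apply mul_le_mul_of_nonneg_right _ hB0
      linarith
    constructor <;> nlinarith [g1.1, g1.2, g2.1, g2.2]
  -- additivity
  set F : ℕ → ℝ := fun n => (if Q n ∧ ∑ p ∈ PT n, g p n ≤ u * √(#(PT n)) then 1 else 0) -
    Phi u * (if Q n then 1 else 0) with hF
  have hFs : ∀ a H : ℕ, (#{n ∈ Ioc a (a + H) | Q n ∧ ∑ p ∈ PT n, g p n ≤ u * √(#(PT n))} : ℝ) -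
        Phi u * #{n ∈ Ioc a (a + H) | Q n} = ∑ n ∈ Ioc a (a + H), F n := by
    intro a H
    rw [hF, Finset.sum_sub_distrib, ← Finset.mul_sum, Finset.sum_boole, Finset.sum_boole]
  have hGs : ∀ a H : ℕ, (#{n ∈ Ioc a (a + H) | Q n} : ℝ) =
      ∑ n ∈ Ioc a (a + H), (if Q n then 1 else 0) := by
    intro a H
    rw [Finset.sum_boole]
  have hsplit : ∀ (f : ℕ → ℝ) (a H₁ H₂ : ℕ), ∑ n ∈ Ioc a (a + (H₁ + H₂)), f n =
      ∑ n ∈ Ioc a (a + H₁), f n + ∑ n ∈ Ioc (a + H₁) (a + H₁ + H₂), f n := by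
    intro f a H₁ H₂
    rw [← add_assoc, ← Finset.sum_union]
    · rw [Finset.Ioc_union_Ioc_eq_Ioc (by omega) (by omega)]
    · rw [Finset.disjoint_left]
      intro n h1 h2
      rw [mem_Ioc] at h1 h2
      omega
  have hadd : ∀ (ε : ℝ) (a H₁ H₂ : ℕ),
      |∑ n ∈ Ioc a (a + H₁), F n| ≤ ε * ∑ n ∈ Ioc a (a + H₁), (if Q n then 1 else 0) →
      |∑ n ∈ Ioc (a + H₁) (a + H₁ + H₂), F n| ≤
        ε * ∑ n ∈ Ioc (a + H₁) (a + H₁ + H₂), (if Q n then 1 else 0) →
      |∑ n ∈ Ioc a (a + (H₁ + H₂)), F n| ≤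
        ε * ∑ n ∈ Ioc a (a + (H₁ + H₂)), (if Q n then 1 else 0) := by
    intro ε a H₁ H₂ h1 h2
    rw [hsplit, hsplit]
    refine (abs_add_le _ _).trans ?_
    rw [mul_add]
    exact add_le_add h1 h2
  obtain ⟨K₁, X₁, hK₁, hX₁3, hbase⟩ := base (ε / 2) (by positivity)
  obtain ⟨X₂, hX₂⟩ := hRl K₁
  obtain ⟨X₃, hX₃⟩ := polylog K₁
  set X₀ := max (max X₁ X₂) X₃ with hX₀
  -- long intervals
  have long : ∀ H a : ℕ, X₀ ≤ a → ell a ≤ H →
      |∑ n ∈ Ioc a (a + H), F n| ≤ ε / 2 * ∑ n ∈ Ioc a (a + H), (if Q n then 1 else 0) := by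
    intro H
    induction H using Nat.strong_induction_on with
    | _ H ih =>
      intro a ha hH
      have ha1 : X₁ ≤ a := ((le_max_left _ _).trans (le_max_left _ _)).trans ha
      have ha2 : X₂ ≤ a := ((le_max_right _ _).trans (le_max_left _ _)).trans ha
      have ha3 : X₃ ≤ a := (le_max_right _ _).trans ha
      have hpl := hX₃ a ha3
      have ha3' : 3 ≤ a := hX₁3.trans ha1
      have hloga := log_three ha3'
      have hlp : 0 ≤ Real.log a ^ (4 * K₁) := by positivity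
      have hK0 : (0 : ℝ) ≤ K₁ := Nat.cast_nonneg _
      -- the base case
      have hb : ∀ H' : ℕ, ell a ≤ H' → (H' : ℝ) ≤ 4 * ell a →
          |∑ n ∈ Ioc a (a + H'), F n| ≤ ε / 2 * ∑ n ∈ Ioc a (a + H'), (if Q n then 1 else 0) := by
        intro H' h1 h2
        have h3 := hbase a H' ha1 h2 (hX₂ a H' ha2 h1 h2) (by
          have : (K₁ : ℝ) ≤ H' := by linarith
          exact_mod_cast this) (by linarith)
        rw [hFs, hGs] at h3
        exact h3
      rcases le_or_gt (H : ℝ) (4 * ell a) with h4 | h4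
      · exact hb H hH h4
      · have hell1 : 1 ≤ ell a := by linarith
        set H₁ := ⌈ell a⌉₊ with hH₁
        have c1 : ell a ≤ H₁ := Nat.le_ceil _
        have c2 : (H₁ : ℝ) < ell a + 1 := Nat.ceil_lt_add_one (by linarith)
        have c3 : H₁ ≤ H := by
          have : (H₁ : ℝ) ≤ H := by linarith
          exact_mod_cast this
        have c4 : 1 ≤ H₁ := by
          have : (1 : ℝ) ≤ H₁ := by linarith
          exact_mod_cast this
        obtain ⟨H₂, rfl⟩ := Nat.exists_eq_add_of_le c3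
        push_cast at h4
        apply hadd (ε / 2) a H₁ H₂ (hb H₁ c1 (by linarith))
        apply ih H₂ (by omega) (a + H₁) (by omega)
        -- the length of the next block
        have c5 : ell (a + H₁) ≤ 2 * ell a := by
          unfold ell
          have ha0 : (0 : ℝ) < a := by positivity
          have d1 : Real.log a ≤ Real.log ((a + H₁ : ℕ) : ℝ) := by
            apply Real.log_le_log ha0
            push_cast
            linarith
          have d2 : (((a + H₁ : ℕ) : ℝ)) ≤ 2 * a := by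
            push_cast
            have d3 : ell a ≤ a / 4 := by
              unfold ell
              apply div_le_div_of_nonneg_right _ (by norm_num)
              apply div_le_self ha0.le
              exact one_le_pow₀ hloga.le
            have d4 : (3 : ℝ) ≤ a := by exact_mod_cast ha3'
            linarith
          have d5 : 0 < Real.log a ^ 3 := by positivity
          calc ((a + H₁ : ℕ) : ℝ) / Real.log ((a + H₁ : ℕ) : ℝ) ^ 3 / 4
              ≤ (2 * a) / Real.log a ^ 3 / 4 := by gcongr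
            _ = 2 * (a / Real.log a ^ 3 / 4) := by ring
        linarith
  refine ⟨max (max K₁ Kp * 4) (max X₀ (⌈2 * (X₀ : ℝ) / (κ * (ε / 2))⌉₊ + X₀ + ⌈ell X₀⌉₊)) + 1,
    by omega, fun a H hRK hKH hlog => ?_⟩
  set K := max (max K₁ Kp * 4) (max X₀ (⌈2 * (X₀ : ℝ) / (κ * (ε / 2))⌉₊ + X₀ + ⌈ell X₀⌉₊)) + 1 with hK
  have k1 : max K₁ Kp * 4 ≤ K := by omega
  have k2 : ⌈2 * (X₀ : ℝ) / (κ * (ε / 2))⌉₊ + X₀ + ⌈ell X₀⌉₊ ≤ K := by omega
  have k3 : K₁ ≤ K := by omega
  have k4 : Kp ≤ K := by omega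
  rw [hFs, hGs]
  have hG0 : 0 ≤ ∑ n ∈ Ioc a (a + H), (if Q n then (1 : ℝ) else 0) :=
    Finset.sum_nonneg fun n _ => by split_ifs <;> norm_num
  rcases le_or_gt X₀ a with ha | ha
  · -- large a
    have : |∑ n ∈ Ioc a (a + H), F n| ≤ ε / 2 * ∑ n ∈ Ioc a (a + H), (if Q n then 1 else 0) := by
      rcases le_or_gt (ell a) H with h1 | h1
      · exact long H a ha h1
      · have ha1 : X₁ ≤ a := ((le_max_left _ _).trans (le_max_left _ _)).trans ha
        have ha3' : 3 ≤ a := hX₁3.trans ha1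
        have hloga := log_three ha3'
        have hell0 : 0 ≤ ell a := by
          unfold ell
          positivity
        have h3 := hbase a H ha1 (by linarith) (hR _ _ _ _ k3 hRK) (k3.trans hKH) (by
          refine le_trans ?_ hlog
          have h4 : Real.log a ≤ Real.log ((a : ℝ) + H) := by
            apply Real.log_le_log (by positivity)
            have : (0 : ℝ) ≤ H := Nat.cast_nonneg _
            linarith
          calc Real.log a ^ (4 * K₁) ≤ Real.log ((a : ℝ) + H) ^ (4 * K₁) := by gcongr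
            _ ≤ Real.log ((a : ℝ) + H) ^ K := pow_le_pow_right₀ (by linarith) (by omega))
        rw [hFs, hGs] at h3
        exact h3
    refine this.trans ?_
    have : ε / 2 ≤ ε := by linarith
    gcongr
  · -- small a
    have hHX : X₀ - a ≤ H := by omega
    obtain ⟨H₂, hH₂⟩ := Nat.exists_eq_add_of_le hHX
    have hpos := hKp a H (hR _ _ _ _ k4 hRK) (k4.trans hKH)
    rw [hGs] at hpos
    rw [hH₂, hsplit, hsplit]
    have e1 : a + (X₀ - a) = X₀ := by omega
    rw [e1]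
    have h5 := long H₂ X₀ le_rfl (by
      have h6 : ⌈ell X₀⌉₊ ≤ H₂ := by omega
      exact (Nat.le_ceil _).trans (by exact_mod_cast h6))
    have h6 : |∑ n ∈ Ioc a X₀, F n| ≤ X₀ := by
      refine (Finset.abs_sum_le_sum_abs _ _).trans ?_
      have h7 : ∀ n ∈ Ioc a X₀, |F n| ≤ 1 := by
        intro n _
        have p0 := Phi_nonneg u
        have p1 := Phi_le_one u
        rw [hF]
        dsimp only
        by_cases q : Q n
        · rw [if_pos q]
          split_ifs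
          · rw [abs_le]; constructor <;> linarith
          · rw [abs_le]; constructor <;> linarith
        · rw [if_neg q, if_neg (fun h => q h.1)]
          simp
      refine (Finset.sum_le_sum h7).trans ?_
      rw [Finset.sum_const, Nat.card_Ioc, nsmul_eq_mul, mul_one]
      exact_mod_cast Nat.sub_le _ _
    have h7 : (X₀ : ℝ) ≤ ε / 2 * ∑ n ∈ Ioc a (a + H), (if Q n then 1 else 0) := by
      have h8 : ⌈2 * (X₀ : ℝ) / (κ * (ε / 2))⌉₊ ≤ H := by omega
      have h9 : 2 * (X₀ : ℝ) / (κ * (ε / 2)) ≤ H := (Nat.le_ceil _).trans (by exact_mod_cast h8)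
      rw [div_le_iff₀ (by positivity)] at h9
      have h10 : (0 : ℝ) ≤ X₀ := Nat.cast_nonneg _
      have h11 : ε / 2 * (κ * H) ≤ ε / 2 * ∑ n ∈ Ioc a (a + H), (if Q n then 1 else 0) := by gcongr
      nlinarith
    have h8 := hsplit (fun n => if Q n then (1 : ℝ) else 0) a (X₀ - a) H₂
    rw [← hH₂, e1] at h8
    rw [← h8]
    have h9 : 0 ≤ ∑ n ∈ Ioc a X₀, (if Q n then (1 : ℝ) else 0) :=
      Finset.sum_nonneg fun n _ => by split_ifs <;> norm_num
    refine (abs_add_le _ _).trans ?_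
    have h10 : ε / 2 * ∑ n ∈ Ioc X₀ (X₀ + H₂), (if Q n then (1 : ℝ) else 0) ≤
        ε / 2 * ∑ n ∈ Ioc a (a + H), (if Q n then 1 else 0) := by
      apply mul_le_mul_of_nonneg_left _ (by positivity)
      linarith
    linarith

end Pool.Agent.V8H64.GL
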