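import Pool.Agent.V8H64.GL.Spl

set_option autoImplicit false

/-! Moving thresholds. -/

namespace Pool.Agent.V8H64.GL

open Finset Filter Topology Pool.Agent.N430.CLT

/-- the threshold `(log n)² (log log n)²` -/
noncomputable def thr (n : ℕ) : ℝ := Real.log n ^ 2 * Real.log (Real.log n) ^ 2

/-- the primes below the threshold -/
noncomputable def PT (n : ℕ) : Finset ℕ := (range ⌈thr n⌉₊).filter Nat.Prime

/-- the length of the blocks -/
noncomputable def ell (a : ℕ) : ℝ := a / Real.log a ^ 3 / 4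

lemma log_three {a : ℕ} (h : 3 ≤ a) : 1 < Real.log a := by
  rw [Real.lt_log_iff_exp_lt (by positivity)]
  have := Real.exp_one_lt_d9
  have h2 : (3 : ℝ) ≤ a := by exact_mod_cast h
  linarith

lemma thr_mono {a n : ℕ} (h3 : 3 ≤ a) (h : a ≤ n) : thr a ≤ thr n := by
  unfold thr
  have h1 := log_three h3
  have h2 : (a : ℝ) ≤ n := by exact_mod_cast h
  have ha : (0 : ℝ) < a := by positivity
  have h4 : Real.log a ≤ Real.log n := Real.log_le_log ha h2
  have h5 : 0 ≤ Real.log (Real.log a) := (Real.log_pos h1).le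
  have h6 : Real.log (Real.log a) ≤ Real.log (Real.log n) := Real.log_le_log (by linarith) h4
  have h7 : 0 ≤ Real.log a := by linarith
  gcongr

/-- the threshold varies by at most one on a block -/
lemma thr_block : ∃ X₀ : ℕ, 3 ≤ X₀ ∧ ∀ a n : ℕ, X₀ ≤ a → a ≤ n → (n : ℝ) ≤ a + 4 * ell a →
    thr n ≤ thr a + 1 := by
  have h1 : Tendsto (fun s : ℝ => Real.log s / s) atTop (𝓝 0) := by
    have := Real.tendsto_pow_log_div_mul_add_atTop 1 0 1 one_ne_zero
    simpa using this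
  have h2 : Tendsto (fun a : ℕ => Real.log (a : ℝ)) atTop atTop :=
    Real.tendsto_log_atTop.comp tendsto_natCast_atTop_atTop
  have h3 := (h1.comp h2).eventually (gt_mem_nhds (show (0 : ℝ) < 1 / 4 by norm_num))
  have h4 := h2.eventually_ge_atTop 3
  obtain ⟨X₀, hX⟩ := eventually_atTop.1 (h3.and h4)
  refine ⟨max X₀ 3, le_max_right _ _, fun a n ha hn hn2 => ?_⟩
  obtain ⟨g1, g2⟩ := hX a ((le_max_left _ _).trans ha)
  have ha3 : 3 ≤ a := (le_max_right _ _).trans ha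
  simp only [Function.comp_apply] at g1
  set s := Real.log a with hs
  have hs0 : 0 < s := by linarith
  have ha0 : (0 : ℝ) < a := by positivity
  have hn0 : (0 : ℝ) < n := lt_of_lt_of_le ha0 (by exact_mod_cast hn)
  have hs' : s ≤ Real.log n := Real.log_le_log ha0 (by exact_mod_cast hn)
  -- the logarithm of n
  have e1 : Real.log n ≤ s + 1 / s ^ 3 := by
    have h5 : (n : ℝ) ≤ a * (1 + 1 / s ^ 3) := by
      refine hn2.trans (le_of_eq ?_)
      unfold ell
      rw [← hs]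
      field_simp
    have h6 : Real.log n ≤ Real.log (a * (1 + 1 / s ^ 3)) := Real.log_le_log hn0 h5
    rw [Real.log_mul ha0.ne' (by positivity)] at h6
    have h7 : Real.log (1 + 1 / s ^ 3) ≤ 1 / s ^ 3 := by
      have := Real.log_le_sub_one_of_pos (show (0 : ℝ) < 1 + 1 / s ^ 3 by positivity)
      linarith
    linarith
  set L := Real.log s with hL
  have hL1 : 1 ≤ L := by
    rw [hL, Real.le_log_iff_exp_le hs0]
    have := Real.exp_one_lt_d9
    linarith
  have hLs : L < s / 4 := by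
    rw [div_lt_iff₀ hs0] at g1
    linarith
  have e2 : Real.log (Real.log n) ≤ L + 1 / s ^ 4 := by
    have h5 : Real.log n ≤ s * (1 + 1 / s ^ 4) := by
      refine e1.trans (le_of_eq ?_)
      field_simp
    have h6 : Real.log (Real.log n) ≤ Real.log (s * (1 + 1 / s ^ 4)) :=
      Real.log_le_log (by linarith) h5
    rw [Real.log_mul hs0.ne' (by positivity)] at h6
    have h7 : Real.log (1 + 1 / s ^ 4) ≤ 1 / s ^ 4 := by
      have := Real.log_le_sub_one_of_pos (show (0 : ℝ) < 1 + 1 / s ^ 4 by positivity)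
      linarith
    linarith
  have hll0 : 0 ≤ Real.log (Real.log n) := Real.log_nonneg (by linarith)
  have e3 : Real.log n * Real.log (Real.log n) ≤ s * L + 3 * L / s ^ 3 := by
    have h5 : Real.log n * Real.log (Real.log n) ≤ (s + 1 / s ^ 3) * (L + 1 / s ^ 4) :=
      mul_le_mul e1 e2 hll0 (by positivity)
    refine h5.trans ?_
    have h6 : (s + 1 / s ^ 3) * (L + 1 / s ^ 4) = s * L + (1 + L + 1 / s ^ 4) / s ^ 3 := by
      field_simp
      ring
    rw [h6]
    have h7 : 1 / s ^ 4 ≤ 1 := by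
      rw [div_le_one (by positivity)]
      exact one_le_pow₀ (by linarith)
    have h8 : (1 + L + 1 / s ^ 4) / s ^ 3 ≤ 3 * L / s ^ 3 := by
      apply div_le_div_of_nonneg_right _ (by positivity)
      linarith
    linarith
  unfold thr
  rw [← mul_pow, ← mul_pow]
  have hA0 : 0 ≤ Real.log n * Real.log (Real.log n) := mul_nonneg (by linarith) hll0
  have e4 : (Real.log n * Real.log (Real.log n)) ^ 2 ≤ (s * L + 3 * L / s ^ 3) ^ 2 :=
    pow_le_pow_left₀ hA0 e3 2
  refine e4.trans ?_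
  have e5 : (s * L + 3 * L / s ^ 3) ^ 2 = (s * L) ^ 2 + (6 * (L / s) ^ 2 + 9 * (L / s) ^ 2 / s ^ 4) := by
    field_simp
    ring
  rw [e5]
  have e6 : (L / s) ^ 2 ≤ 1 / 16 := by
    have h5 : L / s ≤ 1 / 4 := by
      rw [div_le_iff₀ hs0]
      linarith
    calc (L / s) ^ 2 ≤ (1 / 4) ^ 2 := pow_le_pow_left₀ (by positivity) h5 2
      _ = 1 / 16 := by norm_num
  have e7 : 9 * (L / s) ^ 2 / s ^ 4 ≤ 9 * (L / s) ^ 2 := by
    apply div_le_self (by positivity)
    exact one_le_pow₀ (by linarith)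
  linarith

lemma PP_pred {t : ℝ} (ht : 0 < t) : PP (⌈t⌉₊ - 1) = (range ⌈t⌉₊).filter Nat.Prime := by
  unfold PP
  have : 0 < ⌈t⌉₊ := Nat.ceil_pos.2 ht
  congr 2
  omega

/-- the primes below the threshold on a block -/
lemma PT_block {a n : ℕ} (h3 : 3 ≤ a) (hn : a ≤ n) (h : thr n ≤ thr a + 1) (ht : 0 < thr a) :
    PP (⌈thr a⌉₊ - 1) ⊆ PT n ∧ #(PT n \ PP (⌈thr a⌉₊ - 1)) ≤ 1 := by
  rw [PP_pred ht]
  unfold PT
  have h1 : ⌈thr a⌉₊ ≤ ⌈thr n⌉₊ := Nat.ceil_mono (thr_mono h3 hn)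
  have h2 : ⌈thr n⌉₊ ≤ ⌈thr a⌉₊ + 1 := by
    have : ⌈thr n⌉₊ ≤ ⌈thr a + 1⌉₊ := Nat.ceil_mono h
    rwa [Nat.ceil_add_one ht.le] at this
  constructor
  · intro p hp
    rw [mem_filter, mem_range] at hp ⊢
    exact ⟨by omega, hp.2⟩
  · have h4 : (range ⌈thr n⌉₊).filter Nat.Prime \ (range ⌈thr a⌉₊).filter Nat.Prime ⊆ {⌈thr a⌉₊} := by
      intro p hp
      rw [Finset.mem_sdiff, mem_filter, mem_filter, mem_range, mem_range, not_and'] at hp
      rw [mem_singleton]
      have := hp.2 hp.1.2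
      omega
    exact (card_le_card h4).trans (by simp)

lemma PT_card {a n : ℕ} (h3 : 3 ≤ a) (hn : a ≤ n) (h : thr n ≤ thr a + 1) (ht : 0 < thr a) :
    #(PP (⌈thr a⌉₊ - 1)) ≤ #(PT n) ∧ #(PT n) ≤ #(PP (⌈thr a⌉₊ - 1)) + 1 := by
  obtain ⟨h1, h2⟩ := PT_block h3 hn h ht
  refine ⟨card_le_card h1, ?_⟩
  have := card_sdiff_add_card_eq_card h1
  omega

lemma PT_sum {a n : ℕ} (h3 : 3 ≤ a) (hn : a ≤ n) (h : thr n ≤ thr a + 1) (ht : 0 < thr a)
    (g : ℕ → ℝ) (hg : ∀ p, |g p| ≤ 1) :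
    |∑ p ∈ PT n, g p - ∑ p ∈ PP (⌈thr a⌉₊ - 1), g p| ≤ 1 := by
  obtain ⟨h1, h2⟩ := PT_block h3 hn h ht
  rw [← Finset.sum_sdiff h1, add_sub_cancel_right]
  refine (Finset.abs_sum_le_sum_abs _ _).trans ?_
  refine (Finset.sum_le_sum fun p _ => hg p).trans ?_
  rw [Finset.sum_const, nsmul_eq_mul, mul_one]
  exact_mod_cast h2

end Pool.Agent.V8H64.GL
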