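import Pool.Agent.V8H64.GL.Gen
import Pool.Agent.V8H64.GL.Levy

set_option autoImplicit false

/-! The uniform central limit theorem for vectors of weighted sums. -/

namespace Pool.Agent.V8H64.GL

open Finset Filter Topology Pool.Agent.N430.CLT

open Classical in
/-- the characteristic functions of `∑ b_p g_p` are asymptotically Gaussian -/
def CF (Q : ℕ → Prop) (R : ℕ → ℕ → ℕ → Prop) (g : ℕ → ℕ → ℝ) : Prop :=
  ∀ C ε : ℝ, 0 ≤ C → 0 < ε → ∃ K : ℕ, 1 ≤ K ∧ ∀ (a H x : ℕ) (b : ℕ → ℝ), 1 ≤ x → R K a H → K ≤ H →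
    x ^ K ≤ H → (∀ p, K * |b p| ≤ 1) → ∑ p ∈ PP x, b p ^ 2 ≤ C →
      ‖(∑ n ∈ Ioc a (a + H) with Q n, ee (∑ p ∈ PP x, b p * g p n)) -
        #{n ∈ Ioc a (a + H) | Q n} * Complex.exp (-((∑ p ∈ PP x, b p ^ 2) / 2 : ℝ))‖ ≤ ε * H

open Classical in
/-- positive density -/
def Pos (Q : ℕ → Prop) (R : ℕ → ℕ → ℕ → Prop) : Prop :=
  ∃ (κ : ℝ) (K : ℕ), 0 < κ ∧ ∀ a H : ℕ, R K a H → K ≤ H → κ * H ≤ #{n ∈ Ioc a (a + H) | Q n}

lemma sum_sq_comb {r : ℕ} (P : Finset ℕ) (c : Fin r → ℕ → ℝ) (θ : Fin r → ℝ)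
    (hV : ∀ i, 0 < ∑ p ∈ P, c i p ^ 2) (ho : ∀ i j, i ≠ j → ∑ p ∈ P, c i p * c j p = 0) :
    ∑ p ∈ P, (∑ i, θ i * (c i p / √(∑ q ∈ P, c i q ^ 2))) ^ 2 = ∑ i, θ i ^ 2 := by
  have e1 : ∀ p ∈ P, (∑ i, θ i * (c i p / √(∑ q ∈ P, c i q ^ 2))) ^ 2 =
      ∑ i, ∑ j, θ i * θ j / (√(∑ q ∈ P, c i q ^ 2) * √(∑ q ∈ P, c j q ^ 2)) * (c i p * c j p) := by
    intro p _
    rw [sq, Finset.sum_mul_sum]
    refine Finset.sum_congr rfl fun i _ => Finset.sum_congr rfl fun j _ => ?_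
    ring
  rw [Finset.sum_congr rfl e1, Finset.sum_comm]
  refine Finset.sum_congr rfl fun i _ => ?_
  rw [Finset.sum_comm]
  rw [Finset.sum_eq_single i]
  · rw [← Finset.mul_sum]
    have h1 : ∑ p ∈ P, c i p * c i p = ∑ p ∈ P, c i p ^ 2 :=
      Finset.sum_congr rfl fun p _ => (sq _).symm
    rw [h1, Real.mul_self_sqrt (hV i).le]
    have := (hV i).ne'
    field_simp
  · intro j _ hji
    rw [← Finset.mul_sum, ho i j (Ne.symm hji), mul_zero]
  · intro h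
    exact absurd (Finset.mem_univ i) h

open Classical in
/-- **The uniform central limit theorem for vectors** -/
theorem vec_clt (Q : ℕ → Prop) (R : ℕ → ℕ → ℕ → Prop)
    (hR : ∀ K K' a H : ℕ, K ≤ K' → R K' a H → R K a H) (g : ℕ → ℕ → ℝ) (hCF : CF Q R g)
    (hPos : Pos Q R) (r : ℕ) (u : Fin r → ℝ) (ε : ℝ) (hε : 0 < ε) :
    ∃ K : ℕ, 1 ≤ K ∧ ∀ (a H x : ℕ) (c : Fin r → ℕ → ℝ), 1 ≤ x → R K a H → K ≤ H → x ^ K ≤ H →
      (∀ i p, |c i p| ≤ 1) → (∀ i, (K : ℝ) ≤ ∑ p ∈ PP x, c i p ^ 2) →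
      (∀ i j, i ≠ j → ∑ p ∈ PP x, c i p * c j p = 0) →
      |(#{n ∈ Ioc a (a + H) | Q n ∧ ∀ i, ∑ p ∈ PP x, c i p * g p n ≤
          u i * √(∑ p ∈ PP x, c i p ^ 2)} : ℝ) -
        (∏ i, Phi (u i)) * #{n ∈ Ioc a (a + H) | Q n}| ≤ ε * #{n ∈ Ioc a (a + H) | Q n} := by
  obtain ⟨κ, K₀, hκ, hK₀⟩ := hPos
  by_contra hcon
  push Not at hcon
  have hcon' : ∀ n : ℕ, ∃ (a H x : ℕ) (c : Fin r → ℕ → ℝ), 1 ≤ x ∧ R (n + K₀ + 1) a H ∧
      n + K₀ + 1 ≤ H ∧ x ^ (n + K₀ + 1) ≤ H ∧ (∀ i p, |c i p| ≤ 1) ∧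
      (∀ i, ((n + K₀ + 1 : ℕ) : ℝ) ≤ ∑ p ∈ PP x, c i p ^ 2) ∧
      (∀ i j, i ≠ j → ∑ p ∈ PP x, c i p * c j p = 0) ∧
      ε * #{n ∈ Ioc a (a + H) | Q n} < |(#{n ∈ Ioc a (a + H) | Q n ∧ ∀ i, ∑ p ∈ PP x, c i p * g p n ≤
          u i * √(∑ p ∈ PP x, c i p ^ 2)} : ℝ) -
        (∏ i, Phi (u i)) * #{n ∈ Ioc a (a + H) | Q n}| := by
    intro n
    obtain ⟨a, H, x, c, h1, h2, h3, h4, h5, h6, h7, h8⟩ := hcon (n + K₀ + 1) (by omega)
    exact ⟨a, H, x, c, h1, h2, h3, h4, h5, h6, h7, h8⟩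
  choose a H x c hx hRn hH hxH hc1 hcV hco hbad using hcon'
  set S : ℕ → Finset ℕ := fun n => {m ∈ Ioc (a n) (a n + H n) | Q m} with hS
  set V : ℕ → Fin r → ℝ := fun n i => ∑ p ∈ PP (x n), c n i p ^ 2 with hV
  have hV1 : ∀ (n : ℕ) (i : Fin r), (n : ℝ) + 1 ≤ V n i := by
    intro n i
    have := hcV n i
    push_cast at this
    have h2 : (0 : ℝ) ≤ K₀ := Nat.cast_nonneg _
    rw [hV]
    dsimp only
    linarith
  have hV0 : ∀ n i, 0 < V n i := by
    intro n i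
    have := hV1 n i
    have h2 : (0 : ℝ) ≤ n := Nat.cast_nonneg _
    linarith
  have hκS : ∀ n, κ * H n ≤ (S n).card := by
    intro n
    exact hK₀ (a n) (H n) (hR _ _ _ _ (by omega) (hRn n)) (by have := hH n; omega)
  have hHn : ∀ n : ℕ, (n : ℝ) + 1 ≤ H n := by
    intro n
    have h1 := hH n
    have h2 : n + 1 ≤ H n := by omega
    exact_mod_cast h2
  have hSc : ∀ n, (0 : ℝ) < (S n).card := by
    intro n
    have h1 := hHn n
    have h2 : (0 : ℝ) ≤ n := Nat.cast_nonneg _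
    have h3 : 0 < κ * H n := mul_pos hκ (by linarith)
    exact lt_of_lt_of_le h3 (hκS n)
  have hSne : ∀ n, S n ≠ ∅ := by
    intro n h
    have := hSc n
    rw [h] at this
    simp at this
  set Y : ℕ → ℕ → Fin r → ℝ := fun n m i => (∑ p ∈ PP (x n), c n i p * g p m) / √(V n i) with hY
  -- the characteristic functions
  have hchar : ∀ t : Fin r → ℝ, Tendsto (fun n =>
      (∑ m ∈ S n, Complex.exp ((∑ i, t i * Y n m i : ℝ) * Complex.I)) / (S n).card) atTop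
      (𝓝 (Complex.exp (-((∑ i, t i ^ 2) / 2 : ℝ)))) := by
    intro t
    rw [Metric.tendsto_atTop]
    intro η hη
    obtain ⟨K, hK1, hK⟩ := hCF (∑ i, t i ^ 2) (κ * η / 2) (Finset.sum_nonneg fun i _ => sq_nonneg _)
      (by positivity)
    set A : ℝ := K * ∑ i, |t i| with hA
    have hA0 : 0 ≤ A := by positivity
    obtain ⟨n₀, hn₀⟩ := exists_nat_ge (A ^ 2)
    refine ⟨max n₀ K, fun n hn => ?_⟩
    have hn1 : n₀ ≤ n := (le_max_left _ _).trans hn
    have hn2 : K ≤ n := (le_max_right _ _).trans hn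
    have hn1' : A ^ 2 ≤ n := hn₀.trans (by exact_mod_cast hn1)
    set b : ℕ → ℝ := fun p => ∑ i, t i * (c n i p / √(V n i)) with hb
    have hbK : ∀ p, K * |b p| ≤ 1 := by
      intro p
      have h1 : ∀ i, |t i * (c n i p / √(V n i))| ≤ |t i| / √((n : ℝ) + 1) := by
        intro i
        rw [abs_mul, abs_div, abs_of_nonneg (Real.sqrt_nonneg _), div_eq_mul_inv |t i|]
        apply mul_le_mul_of_nonneg_left _ (abs_nonneg _)
        rw [div_eq_mul_inv]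
        have h2 : √((n : ℝ) + 1) ≤ √(V n i) := Real.sqrt_le_sqrt (hV1 n i)
        have h3 : 0 < √((n : ℝ) + 1) := Real.sqrt_pos.2 (by positivity)
        have h4 : (√(V n i))⁻¹ ≤ (√((n : ℝ) + 1))⁻¹ := inv_anti₀ h3 h2
        calc |c n i p| * (√(V n i))⁻¹ ≤ 1 * (√((n : ℝ) + 1))⁻¹ :=
              mul_le_mul (hc1 n i p) h4 (by positivity) zero_le_one
          _ = _ := one_mul _
      have h2 : |b p| ≤ (∑ i, |t i|) / √((n : ℝ) + 1) := by
        rw [hb]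
        refine (Finset.abs_sum_le_sum_abs _ _).trans ((Finset.sum_le_sum fun i _ => h1 i).trans ?_)
        rw [Finset.sum_div]
      have h3 : 0 < √((n : ℝ) + 1) := Real.sqrt_pos.2 (by positivity)
      calc K * |b p| ≤ K * ((∑ i, |t i|) / √((n : ℝ) + 1)) := by gcongr
        _ = A / √((n : ℝ) + 1) := by rw [hA]; ring
        _ ≤ 1 := by
            rw [div_le_one h3]
            apply Real.le_sqrt_of_sq_le
            linarith
    have hbsum : ∑ p ∈ PP (x n), b p ^ 2 = ∑ i, t i ^ 2 :=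
      sum_sq_comb (PP (x n)) (c n) t (hV0 n) (hco n)
    have h1 := hK (a n) (H n) (x n) b (hx n) (hR _ _ _ _ (by omega) (hRn n))
      (by have := hH n; omega) ((Nat.pow_le_pow_right (hx n) (by omega)).trans (hxH n)) hbK
      hbsum.le
    rw [hbsum] at h1
    have h2 : ∀ m, ee (∑ p ∈ PP (x n), b p * g p m) =
        Complex.exp ((∑ i, t i * Y n m i : ℝ) * Complex.I) := by
      intro m
      unfold ee
      congr 3
      rw [hb, hY]
      dsimp only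
      calc ∑ p ∈ PP (x n), (∑ i, t i * (c n i p / √(V n i))) * g p m
          = ∑ p ∈ PP (x n), ∑ i, t i * (c n i p * g p m / √(V n i)) := by
            refine Finset.sum_congr rfl fun p _ => ?_
            rw [Finset.sum_mul]
            refine Finset.sum_congr rfl fun i _ => ?_
            ring
        _ = ∑ i, t i * ((∑ p ∈ PP (x n), c n i p * g p m) / √(V n i)) := by
            rw [Finset.sum_comm]
            refine Finset.sum_congr rfl fun i _ => ?_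
            rw [Finset.sum_div, Finset.mul_sum]
    rw [Finset.sum_congr rfl fun m _ => h2 m] at h1
    have h3 : (0 : ℝ) < (S n).card := hSc n
    have h4 : ((S n).card : ℂ) ≠ 0 := by
      have := h3.ne'
      exact_mod_cast this
    rw [dist_eq_norm]
    have e : (∑ m ∈ S n, Complex.exp ((∑ i, t i * Y n m i : ℝ) * Complex.I)) / (S n).card -
        Complex.exp (-((∑ i, t i ^ 2) / 2 : ℝ)) =
        ((∑ m ∈ S n, Complex.exp ((∑ i, t i * Y n m i : ℝ) * Complex.I)) -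
          (S n).card * Complex.exp (-((∑ i, t i ^ 2) / 2 : ℝ))) / (S n).card := by
      rw [sub_div, mul_div_cancel_left₀ _ h4]
    rw [e, norm_div, Complex.norm_natCast, div_lt_iff₀ h3]
    refine lt_of_le_of_lt h1 ?_
    have h5 := hκS n
    have h6 : κ * η / 2 * (H n : ℝ) ≤ η / 2 * (S n).card := by
      calc κ * η / 2 * (H n : ℝ) = η / 2 * (κ * H n) := by ring
        _ ≤ η / 2 * (S n).card := by gcongr
    have h7 : η / 2 * ((S n).card : ℝ) < η * (S n).card := by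
      have := mul_pos hη h3
      linarith
    linarith
  have hlev := levy S Y hSne hchar u
  rw [Metric.tendsto_atTop] at hlev
  obtain ⟨n, hn⟩ := hlev ε hε
  have h1 := hn n le_rfl
  have h2 := hbad n
  have h3 : (0 : ℝ) < (S n).card := hSc n
  have e2 : {m ∈ S n | ∀ i, Y n m i ≤ u i} =
      {m ∈ Ioc (a n) (a n + H n) | Q m ∧ ∀ i, ∑ p ∈ PP (x n), c n i p * g p m ≤
          u i * √(∑ p ∈ PP (x n), c n i p ^ 2)} := by
    rw [hS]
    dsimp only
    rw [Finset.filter_filter]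
    refine Finset.filter_congr fun m _ => ?_
    refine and_congr_right fun _ => forall_congr' fun i => ?_
    rw [hY]
    dsimp only
    rw [div_le_iff₀ (Real.sqrt_pos.2 (hV0 n i))]
  rw [e2, Real.dist_eq, div_sub' h3.ne', abs_div, abs_of_pos h3, div_lt_iff₀ h3] at h1
  rw [mul_comm ((S n).card : ℝ)] at h1
  exact absurd h1 (not_lt.2 h2.le)

end Pool.Agent.V8H64.GL
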